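import Pool.Agent.Helper57.CH.Core3

set_option autoImplicit false

/-! Joint form: assembly. -/

namespace Pool.Agent.Helper57.CH

open Finset
open Pool.Agent.Helper7.SC (e nuhat Ecyc stA4)
open Pool.Agent.Helper57.U2 (rep upTo)

lemma joint_mono {b l K : ℕ} {ε ε' : ℝ} (h : ε ≤ ε') {a a' d : ℕ} (hd : Joint b l K ε a a' d) :
    Joint b l K ε' a a' d := fun u v w hu hv hw =>
  (hd u v w hu hv hw).trans (mul_le_mul_of_nonneg_right h (Nat.cast_nonneg K))

/-- the parameters of a union bound -/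
noncomputable def pars (H q : ℕ) : Finset ((ℤ × ℤ × ℤ) × ℂ × ℕ) :=
  {k ∈ Icc (-(H : ℤ)) H ×ˢ Icc (-(H : ℤ)) H ×ˢ Icc (-(H : ℤ)) H | k ≠ (0, 0, 0)} ×ˢ
    ({1, -1, Complex.I, -Complex.I} : Finset ℂ) ×ˢ range q

open Classical in
/-- the indicator of one bad event -/
noncomputable def ind (b q K : ℕ) (κ : ℝ) (r m : ℕ) (k : ℤ × ℤ × ℤ) (o : ℂ) (ξ : Fin K → ℤ)
    (a a' d d' : ℕ) : ℝ :=
  if (((a : ℤ) + a' + zz b ξ : ℤ) : ZMod (b ^ K)) = (((d : ℤ) + d' : ℤ) : ZMod (b ^ K)) ∧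
    κ * m ≤ ∑ B : Fin m, (o * e (k.1 * ((a : ℝ) / (b : ℝ) ^ (r + (B + 1) * q)) +
      k.2.1 * ((a' : ℝ) / (b : ℝ) ^ (r + (B + 1) * q)) +
      k.2.2 * ((d : ℝ) / (b : ℝ) ^ (r + (B + 1) * q)))).re
  then 1 else 0

theorem stCH3 (hMu : StMu) (hG : StG4) (hD : StD3) (hM : StM3) : StCH3 := by
  classical
  intro b l hb hl ε' hε'
  obtain ⟨ε, hεe⟩ : ∃ ε : ℝ, ε = min ε' 1 := ⟨_, rfl⟩
  have hε : 0 < ε := by rw [hεe]; exact lt_min hε' one_pos
  have hε1 : ε ≤ 1 := by rw [hεe]; exact min_le_right _ _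
  have hεε' : ε ≤ ε' := by rw [hεe]; exact min_le_left _ _
  have hbl2 : 2 ≤ b ^ l := by
    calc 2 ≤ b := hb
      _ = b ^ 1 := (pow_one b).symm
      _ ≤ b ^ l := Nat.pow_le_pow_right (by omega) hl
  obtain ⟨H, κ, hH, hκ, hκ1, hW⟩ := hM (b ^ l) hbl2 ε hε
  obtain ⟨q, c₀, hq1, hql, hc₀, hc₀1, hcore⟩ := core3 hMu hG b l hb H κ hH hκ hκ1
  have hqr : (1 : ℝ) ≤ q := by exact_mod_cast hq1
  have hb0 : (0 : ℝ) < b := by
    have : 0 < b := by omega
    exact_mod_cast this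
  have hbl1 : (1 : ℝ) ≤ (b : ℝ) ^ l := one_le_pow₀ (by
    have : 1 ≤ b := by omega
    exact_mod_cast this)
  have hbl3 : (1 : ℝ) ≤ ((b : ℝ) ^ l) ^ 3 := one_le_pow₀ hbl1
  obtain ⟨c, hc⟩ : ∃ c : ℝ, c = c₀ / q := ⟨_, rfl⟩
  have hc0 : 0 < c := by rw [hc]; positivity
  obtain ⟨K₀, hK₀⟩ : ∃ K₀ : ℝ, K₀ = 4 * ((b : ℝ) ^ l) ^ 3 * q / ε := ⟨_, rfl⟩
  have hK₀0 : 0 < K₀ := by rw [hK₀]; positivity
  obtain ⟨N, hN⟩ : ∃ N : ℝ, N = #(pars H q) := ⟨_, rfl⟩
  have hN0 : 0 ≤ N := by rw [hN]; exact Nat.cast_nonneg _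
  obtain ⟨C, hC⟩ : ∃ C : ℝ, C = 4 * (N * Real.exp 2 + Real.exp (c * K₀)) := ⟨_, rfl⟩
  have hC0 : 0 < C := by rw [hC]; positivity
  refine ⟨c, C, hc0, hC0, fun A K s hs hs1 => ?_⟩
  obtain ⟨S, hS⟩ : ∃ S : Finset ℕ, S = upTo A (b ^ K) := ⟨_, rfl⟩
  obtain ⟨E, hE⟩ : ∃ E : ℝ, E = ∑ n ∈ range (2 * b ^ K), (rep A n : ℝ) ^ 2 := ⟨_, rfl⟩
  have hEn : Ecyc (b ^ K) S ≤ 2 * E := by rw [hS, hE]; exact energy_le A (b ^ K)
  have hEc : 0 ≤ Ecyc (b ^ K) S := by
    unfold Ecyc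
    refine sum_nonneg fun _ _ => sum_nonneg fun _ _ => sum_nonneg fun _ _ => sum_nonneg fun _ _ => ?_
    split_ifs <;> norm_num
  rw [← hS, ← hE]
  have hpr : ∀ ξ : Fin K → ℤ, 0 ≤ prob s ξ := fun ξ => by
    unfold prob
    refine prod_nonneg fun i _ => ?_
    split_ifs <;> linarith
  have hbad : ∀ z : ℤ, (bad3 b l K ε' S z : ℝ) = ∑ a ∈ S, ∑ a' ∈ S, ∑ d ∈ S, ∑ d' ∈ S,
      (if (a : ℤ) + a' + z = d + d' ∧ ¬ Joint b l K ε' a a' d then (1 : ℝ) else 0) := by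
    intro z
    unfold bad3
    rw [card_filter]
    push_cast
    rw [sum_product, sum_product]
    refine sum_congr rfl fun a _ => sum_congr rfl fun a' _ => ?_
    rw [sum_product]
  -- the indicator
  have hT0 : ∀ r m k o ξ a a' d d', 0 ≤ ind b q K κ r m k o ξ a a' d d' := by
    intro r m k o ξ a a' d d'
    unfold ind
    split_ifs <;> norm_num
  have key : ∀ (r m : ℕ) (k : ℤ × ℤ × ℤ) (o : ℂ), r + m * q ≤ K → k ≠ (0, 0, 0) → |k.1| ≤ H →
      |k.2.1| ≤ H → |k.2.2| ≤ H → o ∈ ({1, -1, Complex.I, -Complex.I} : Finset ℂ) →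
      ∑ ξ ∈ states K, prob s ξ * ∑ a ∈ S, ∑ a' ∈ S, ∑ d ∈ S, ∑ d' ∈ S,
        ind b q K κ r m k o ξ a a' d d' ≤ 4 * Real.exp (-(c₀ * s * m)) * E := by
    intro r m k o hrm hk h1 h2 h3 ho
    have h4 := hcore K r m hrm k.1 k.2.1 k.2.2 (fun h => hk (by
      obtain ⟨a, b, c⟩ := k
      simp only at h
      rw [h.1, h.2.1, h.2.2])) h1 h2 h3 o ho s hs hs1 S
    refine le_trans (le_of_eq ?_) (h4.trans ?_)
    · refine sum_congr rfl fun ξ _ => ?_
      congr 1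
    calc 2 * Real.exp (-(c₀ * s * m)) * Ecyc (b ^ K) S ≤
        2 * Real.exp (-(c₀ * s * m)) * (2 * E) := mul_le_mul_of_nonneg_left hEn (by positivity)
      _ = _ := by ring
  have hE0 : 0 ≤ E := by linarith
  rcases lt_or_ge (K : ℝ) K₀ with hlt | hge
  · -- small K
    have h1 := key 0 0 (1, 0, 0) 1 (by omega) (by simp) (by simp only [abs_one]; exact_mod_cast hH)
      (by simp) (by simp) (by simp)
    have h2 : ∑ ξ ∈ states K, prob s ξ * (bad3 b l K ε' S (zz b ξ) : ℝ) ≤ 4 * E := by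
      refine le_trans (sum_le_sum fun ξ _ => mul_le_mul_of_nonneg_left ?_ (hpr ξ)) (h1.trans ?_)
      · rw [hbad]
        refine sum_le_sum fun a _ => sum_le_sum fun a' _ => sum_le_sum fun d _ =>
          sum_le_sum fun d' _ => ?_
        by_cases h3 : (a : ℤ) + a' + zz b ξ = d + d' ∧ ¬ Joint b l K ε' a a' d
        · rw [if_pos h3]
          unfold ind
          rw [if_pos]
          refine ⟨by rw [h3.1], ?_⟩
          simp
        · rw [if_neg h3]
          exact hT0 _ _ _ _ _ _ _ _ _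
      · simp
    refine h2.trans ?_
    have h4 : 1 ≤ Real.exp (c * K₀) * Real.exp (-(c * s * K)) := by
      rw [← Real.exp_add]
      refine Real.one_le_exp ?_
      have h5 : c * s * K ≤ c * K₀ := by
        have h6 : s * K ≤ K₀ := by
          have h7 : (0 : ℝ) ≤ K := Nat.cast_nonneg K
          nlinarith
        rw [mul_assoc]
        exact mul_le_mul_of_nonneg_left h6 hc0.le
      linarith
    have h8 : 4 * Real.exp (c * K₀) ≤ C := by
      rw [hC]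
      have : 0 ≤ N * Real.exp 2 := by positivity
      linarith
    calc 4 * E ≤ 4 * (Real.exp (c * K₀) * Real.exp (-(c * s * K))) * E := by
          refine mul_le_mul_of_nonneg_right ?_ hE0
          linarith
      _ = 4 * Real.exp (c * K₀) * Real.exp (-(c * s * K)) * E := by ring
      _ ≤ C * Real.exp (-(c * s * K)) * E :=
          mul_le_mul_of_nonneg_right (mul_le_mul_of_nonneg_right h8 (Real.exp_pos _).le) hE0
  · have hKq : 4 * ((b : ℝ) ^ l) ^ 3 * q ≤ ε * K := by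
      rw [hK₀, div_le_iff₀ hε] at hge
      linarith
    have hqK : q ≤ K := by
      have h3 : (q : ℝ) ≤ K := by nlinarith
      exact_mod_cast h3
    have hterm : ∀ r : ℕ, r < q → r + ((K - r) / q) * q ≤ K := by
      intro r hr
      have h1 : (K - r) / q * q ≤ K - r := Nat.div_mul_le_self _ _
      omega
    have hstep : ∀ ξ : Fin K → ℤ, (bad3 b l K ε' S (zz b ξ) : ℝ) ≤
        ∑ P ∈ pars H q, ∑ a ∈ S, ∑ a' ∈ S, ∑ d ∈ S, ∑ d' ∈ S,
          ind b q K κ P.2.2 ((K - P.2.2) / q) P.1 P.2.1 ξ a a' d d' := by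
      intro ξ
      have hsw : ∀ G : (ℤ × ℤ × ℤ) × ℂ × ℕ → ℕ → ℕ → ℕ → ℕ → ℝ,
          ∑ P ∈ pars H q, ∑ a ∈ S, ∑ a' ∈ S, ∑ d ∈ S, ∑ d' ∈ S, G P a a' d d' =
            ∑ a ∈ S, ∑ a' ∈ S, ∑ d ∈ S, ∑ d' ∈ S, ∑ P ∈ pars H q, G P a a' d d' := by
        intro G
        rw [sum_comm]
        refine sum_congr rfl fun a _ => ?_
        rw [sum_comm]
        refine sum_congr rfl fun a' _ => ?_
        rw [sum_comm]
        refine sum_congr rfl fun d _ => ?_
        rw [sum_comm]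
      rw [hbad, hsw]
      refine sum_le_sum fun a _ => sum_le_sum fun a' _ => sum_le_sum fun d _ =>
        sum_le_sum fun d' _ => ?_
      by_cases h3 : (a : ℤ) + a' + zz b ξ = d + d' ∧ ¬ Joint b l K ε' a a' d
      · rw [if_pos h3]
        have h4 : ¬ Joint b l K ε a a' d := fun h => h3.2 (joint_mono hεε' h)
        obtain ⟨u, hu, v, hv, w, hw, r, hr, h5⟩ := hD b l q K ε hb hl hql hε hKq a a' d h4
        have hcast : (((b ^ l : ℕ) : ℝ)) = (b : ℝ) ^ l := by push_cast; rfl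
        obtain ⟨k₁, k₂, k₃, hk, hk1, hk2, hk3, o, ho, h6⟩ := hW ((K - r) / q)
          (fun B => (a : ℝ) / (b : ℝ) ^ (r + (B + 1) * q))
          (fun B => (a' : ℝ) / (b : ℝ) ^ (r + (B + 1) * q))
          (fun B => (d : ℝ) / (b : ℝ) ^ (r + (B + 1) * q)) u v w hu hv hw (by
            rw [hcast]
            rw [hcast] at h5
            exact h5)
        have hP : ((k₁, k₂, k₃), o, r) ∈ pars H q := by
          unfold pars
          refine mem_product.2 ⟨mem_filter.2 ⟨mem_product.2 ⟨?_, mem_product.2 ⟨?_, ?_⟩⟩, ?_⟩,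
            mem_product.2 ⟨ho, mem_range.2 hr⟩⟩
          · exact mem_Icc.2 (abs_le.1 hk1)
          · exact mem_Icc.2 (abs_le.1 hk2)
          · exact mem_Icc.2 (abs_le.1 hk3)
          · intro h
            simp only [Prod.mk.injEq] at h
            exact hk h
        refine le_trans ?_ (single_le_sum (f := fun P : (ℤ × ℤ × ℤ) × ℂ × ℕ =>
          ind b q K κ P.2.2 ((K - P.2.2) / q) P.1 P.2.1 ξ a a' d d') (fun P _ => hT0 _ _ _ _ _ _ _ _ _) hP)
        show (1 : ℝ) ≤ ind b q K κ r ((K - r) / q) (k₁, k₂, k₃) o ξ a a' d d'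
        unfold ind
        rw [if_pos]
        exact ⟨by rw [h3.1], h6⟩
      · rw [if_neg h3]
        exact sum_nonneg fun P _ => hT0 _ _ _ _ _ _ _ _ _
    have hsum : ∑ ξ ∈ states K, prob s ξ * (bad3 b l K ε' S (zz b ξ) : ℝ) ≤
        ∑ P ∈ pars H q, Real.exp 2 * Real.exp (-(c * s * K)) * (4 * E) := by
      refine (sum_le_sum fun ξ _ => mul_le_mul_of_nonneg_left (hstep ξ) (hpr ξ)).trans ?_
      have hsw : ∑ ξ ∈ states K, prob s ξ * ∑ P ∈ pars H q, ∑ a ∈ S, ∑ a' ∈ S, ∑ d ∈ S, ∑ d' ∈ S,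
          ind b q K κ P.2.2 ((K - P.2.2) / q) P.1 P.2.1 ξ a a' d d' =
          ∑ P ∈ pars H q, ∑ ξ ∈ states K, prob s ξ * ∑ a ∈ S, ∑ a' ∈ S, ∑ d ∈ S, ∑ d' ∈ S,
          ind b q K κ P.2.2 ((K - P.2.2) / q) P.1 P.2.1 ξ a a' d d' := by
        rw [sum_comm]
        exact sum_congr rfl fun ξ _ => by rw [mul_sum]
      rw [hsw]
      refine sum_le_sum fun P hP => ?_
      obtain ⟨⟨k₁, k₂, k₃⟩, o, r⟩ := P
      unfold pars at hP
      obtain ⟨hP1, hP2⟩ := mem_product.1 hP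
      obtain ⟨hP3, hP4⟩ := mem_filter.1 hP1
      obtain ⟨hk1, hP5⟩ := mem_product.1 hP3
      obtain ⟨hk2, hk3⟩ := mem_product.1 hP5
      obtain ⟨ho, hr⟩ := mem_product.1 hP2
      have hr' : r < q := mem_range.1 hr
      have h1 := key r ((K - r) / q) (k₁, k₂, k₃) o (hterm r hr') hP4 (abs_le.2 (mem_Icc.1 hk1))
        (abs_le.2 (mem_Icc.1 hk2)) (abs_le.2 (mem_Icc.1 hk3)) ho
      refine h1.trans ?_
      have h2 : (K : ℝ) ≤ q * ((K - r) / q : ℕ) + 2 * q := by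
        have h3 : K - r < q * ((K - r) / q + 1) := Nat.lt_mul_div_succ (K - r) (by omega)
        have h4 : K ≤ q * ((K - r) / q) + 2 * q := by
          have h5 : q * ((K - r) / q + 1) = q * ((K - r) / q) + q := by ring
          omega
        exact_mod_cast h4
      have h3 : c * s * K ≤ c₀ * s * ((K - r) / q : ℕ) + 2 * (c₀ * s) := by
        have h4 : c * s * K ≤ c * s * (q * ((K - r) / q : ℕ) + 2 * q) :=
          mul_le_mul_of_nonneg_left h2 (by positivity)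
        refine h4.trans (le_of_eq ?_)
        rw [hc]
        field_simp
      have h4 : c₀ * s ≤ 1 := by nlinarith
      have h5 : Real.exp (-(c₀ * s * ((K - r) / q : ℕ))) ≤ Real.exp 2 * Real.exp (-(c * s * K)) := by
        rw [← Real.exp_add]
        exact Real.exp_le_exp.2 (by linarith)
      calc 4 * Real.exp (-(c₀ * s * ((K - r) / q : ℕ))) * E ≤
          4 * (Real.exp 2 * Real.exp (-(c * s * K))) * E :=
            mul_le_mul_of_nonneg_right (mul_le_mul_of_nonneg_left h5 (by norm_num)) hE0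
        _ = _ := by ring
    refine hsum.trans ?_
    rw [sum_const, nsmul_eq_mul, ← hN]
    calc N * (Real.exp 2 * Real.exp (-(c * s * K)) * (4 * E)) =
        4 * (N * Real.exp 2) * Real.exp (-(c * s * K)) * E := by ring
      _ ≤ C * Real.exp (-(c * s * K)) * E := by
          refine mul_le_mul_of_nonneg_right (mul_le_mul_of_nonneg_right ?_ (Real.exp_pos _).le) hE0
          rw [hC]
          have : 0 < Real.exp (c * K₀) := Real.exp_pos _
          linarith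

end Pool.Agent.Helper57.CH
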