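import Pool.Agent.Helper57.CH.Frames3

set_option autoImplicit false

/-! Noisy reading with the two-sided noise, from the one-sided form. -/

namespace Pool.Agent.Helper57.CH

open Finset
open Pool.Agent.Helper57.U2 (rep upTo)

/-- The digit of `n` at position `i` in base `b`. -/
def dig (b i n : ℕ) : ℕ := n / b ^ i % b

open Classical in
noncomputable def read1 (b K : ℕ) (ε : ℝ) (A : Set ℕ) (J : ℕ → ℕ → ℕ) (z : ℕ) : Finset ℕ :=
  {n ∈ range (b ^ K) | ∃ a ∈ A, ∃ a' ∈ A, a + a' = n ∧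
    (1 / b + ε) * K ≤ (#{i ∈ range K | J (n + z) i = dig b i a} : ℝ)}

open Classical in
noncomputable def read2 (b K : ℕ) (ε : ℝ) (A : Set ℕ) (J : ℤ → ℕ → ℕ) (z : ℤ) : Finset ℕ :=
  {n ∈ range (b ^ K) | ∃ a ∈ A, ∃ a' ∈ A, a + a' = n ∧
    (1 / b + ε) * K ≤ (#{i ∈ range K | J (n + z) i = dig b i a} : ℝ)}

/-- one-sided -/
def StNr : Prop := ∀ (b : ℕ) (ε : ℝ), 2 ≤ b → 0 < ε → ∃ c C : ℝ, 0 < c ∧ 0 < C ∧
  ∀ (A : Set ℕ) (K : ℕ) (p : ℝ), 0 < p → p ≤ 1 / 2 → ∀ J : ℕ → ℕ → ℕ,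
    ∑ T ∈ (range K).powerset, p ^ #T * (1 - p) ^ (K - #T) *
      #(read1 b K ε A J (∑ i ∈ T, b ^ i)) ≤
    C * (b : ℝ) ^ K * (Real.exp (-(c * p * K)) *
      (∑ n ∈ range (2 * b ^ K), (rep A n : ℝ) ^ 2) / (b : ℝ) ^ K) ^ c

/-- the difference of two one-sided noises is a two-sided noise -/
def StPush : Prop := ∀ (b K : ℕ) (p : ℝ) (F : ℤ → ℝ),
  ∑ T ∈ (range K).powerset, ∑ U ∈ (range K).powerset, p ^ #T * (1 - p) ^ (K - #T) *
    (p ^ #U * (1 - p) ^ (K - #U)) * F (((∑ i ∈ U, b ^ i : ℕ) : ℤ) - ((∑ i ∈ T, b ^ i : ℕ) : ℤ)) =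
  ∑ ξ ∈ states K, prob (2 * p * (1 - p)) ξ * F (zz b ξ)

/-- two-sided -/
def StNr2 : Prop := ∀ (b : ℕ) (ε : ℝ), 2 ≤ b → 0 < ε → ∃ c C : ℝ, 0 < c ∧ 0 < C ∧
  ∀ (A : Set ℕ) (K : ℕ) (s : ℝ), 0 < s → s ≤ 1 / 2 → ∀ J : ℤ → ℕ → ℕ,
    ∑ ξ ∈ states K, prob s ξ * #(read2 b K ε A J (zz b ξ)) ≤
    C * (b : ℝ) ^ K * (Real.exp (-(c * s * K)) *
      (∑ n ∈ range (2 * b ^ K), (rep A n : ℝ) ^ 2) / (b : ℝ) ^ K) ^ c

lemma sum_wt (K : ℕ) (p : ℝ) : ∑ T ∈ (range K).powerset, p ^ #T * (1 - p) ^ (K - #T) = 1 := by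
  have h := Finset.sum_pow_mul_eq_add_pow p (1 - p) (range K)
  rw [card_range] at h
  rw [h]
  simp

lemma read2_eq (b K : ℕ) (ε : ℝ) (A : Set ℕ) (J : ℤ → ℕ → ℕ) (u t : ℕ) :
    read2 b K ε A J ((u : ℤ) - t) = read1 b K ε A (fun y i => J ((y : ℤ) - t) i) u := by
  classical
  have h : ∀ n i : ℕ, J (((n + u : ℕ) : ℤ) - t) i = J ((n : ℤ) + ((u : ℤ) - t)) i := fun n i => by
    congr 1
    push_cast
    ring
  ext n
  unfold read2 read1
  rw [mem_filter, mem_filter]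
  have h2 : ∀ a : ℕ, {i ∈ range K | J (((n + u : ℕ) : ℤ) - t) i = dig b i a} =
      {i ∈ range K | J ((n : ℤ) + ((u : ℤ) - t)) i = dig b i a} := fun a =>
    filter_congr fun i _ => by rw [h]
  constructor
  · rintro ⟨h3, a, ha, a', ha', h4, h5⟩
    refine ⟨h3, a, ha, a', ha', h4, ?_⟩
    rw [h2]
    exact h5
  · rintro ⟨h3, a, ha, a', ha', h4, h5⟩
    refine ⟨h3, a, ha, a', ha', h4, ?_⟩
    rw [← h2]
    exact h5

theorem stNr2 (hnr : StNr) (hpush : StPush) : StNr2 := by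
  classical
  intro b ε hb hε
  obtain ⟨c, C, hc, hC, h⟩ := hnr b ε hb hε
  refine ⟨c / 2, max C 1, by positivity, lt_of_lt_of_le hC (le_max_left _ _),
    fun A K s hs hs2 J => ?_⟩
  obtain ⟨p, hp⟩ : ∃ p : ℝ, p = (1 - √(1 - 2 * s)) / 2 := ⟨_, rfl⟩
  have hsq : √(1 - 2 * s) ^ 2 = 1 - 2 * s := Real.sq_sqrt (by linarith)
  have hsq0 : 0 ≤ √(1 - 2 * s) := Real.sqrt_nonneg _
  have hps : 2 * p * (1 - p) = s := by rw [hp]; nlinarith
  have hp2 : p ≤ 1 / 2 := by rw [hp]; linarith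
  have hp0 : 0 < p := by
    by_contra hneg
    have : 2 * p * (1 - p) ≤ 0 := by
      have h1 : 0 ≤ 1 - p := by linarith
      have h2 : p ≤ 0 := not_lt.1 hneg
      nlinarith
    linarith
  have hps2 : s / 2 ≤ p := by nlinarith
  have hx : (0 : ℝ) < (b : ℝ) ^ K := by
    have : 0 < b := by omega
    positivity
  obtain ⟨E, hE⟩ : ∃ E : ℝ, E = ∑ n ∈ range (2 * b ^ K), (rep A n : ℝ) ^ 2 := ⟨_, rfl⟩
  have hE0 : 0 ≤ E := by rw [hE]; exact sum_nonneg fun _ _ => by positivity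
  have hw0 : ∀ T : Finset ℕ, 0 ≤ p ^ #T * (1 - p) ^ (K - #T) := fun T => by
    have : 0 ≤ 1 - p := by linarith
    positivity
  have key := hpush b K p (fun z => (#(read2 b K ε A J z) : ℝ))
  rw [hps] at key
  rw [← key, ← hE]
  have h1 : ∀ T ∈ (range K).powerset, ∑ U ∈ (range K).powerset, p ^ #T * (1 - p) ^ (K - #T) *
      (p ^ #U * (1 - p) ^ (K - #U)) *
        (#(read2 b K ε A J (((∑ i ∈ U, b ^ i : ℕ) : ℤ) - ((∑ i ∈ T, b ^ i : ℕ) : ℤ))) : ℝ) =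
      p ^ #T * (1 - p) ^ (K - #T) * ∑ U ∈ (range K).powerset, p ^ #U * (1 - p) ^ (K - #U) *
        (#(read1 b K ε A (fun y i => J ((y : ℤ) - ((∑ i ∈ T, b ^ i : ℕ) : ℤ)) i)
          (∑ i ∈ U, b ^ i)) : ℝ) := by
    intro T _
    rw [mul_sum]
    refine sum_congr rfl fun U _ => ?_
    rw [read2_eq]
    ring
  rw [sum_congr rfl h1]
  have hR : 0 ≤ Real.exp (-(c / 2 * s * K)) * E / (b : ℝ) ^ K := by positivity
  have hfin : ∀ B : ℝ, (∀ T ∈ (range K).powerset, ∑ U ∈ (range K).powerset,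
      p ^ #U * (1 - p) ^ (K - #U) *
        (#(read1 b K ε A (fun y i => J ((y : ℤ) - ((∑ i ∈ T, b ^ i : ℕ) : ℤ)) i)
          (∑ i ∈ U, b ^ i)) : ℝ) ≤ B) →
      ∑ T ∈ (range K).powerset, p ^ #T * (1 - p) ^ (K - #T) *
        ∑ U ∈ (range K).powerset, p ^ #U * (1 - p) ^ (K - #U) *
        (#(read1 b K ε A (fun y i => J ((y : ℤ) - ((∑ i ∈ T, b ^ i : ℕ) : ℤ)) i)
          (∑ i ∈ U, b ^ i)) : ℝ) ≤ B := by
    intro B hB
    have h2 := sum_le_sum fun T hT => mul_le_mul_of_nonneg_left (hB T hT) (hw0 T)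
    refine h2.trans (le_of_eq ?_)
    rw [← sum_mul, sum_wt, one_mul]
  rcases le_total (Real.exp (-(c / 2 * s * K)) * E / (b : ℝ) ^ K) 1 with h1' | h1'
  · refine (hfin _ fun T _ => h A K p hp0 hp2 _).trans ?_
    rw [← hE]
    have h3 : Real.exp (-(c * p * K)) * E / (b : ℝ) ^ K ≤
        Real.exp (-(c / 2 * s * K)) * E / (b : ℝ) ^ K := by
      have h4 : Real.exp (-(c * p * K)) ≤ Real.exp (-(c / 2 * s * K)) := by
        refine Real.exp_le_exp.2 ?_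
        have h5 : c / 2 * s * K ≤ c * p * K := by
          have h6 : c / 2 * s ≤ c * p := by nlinarith
          exact mul_le_mul_of_nonneg_right h6 (Nat.cast_nonneg _)
        linarith
      gcongr
    have h4 : (Real.exp (-(c * p * K)) * E / (b : ℝ) ^ K) ^ c ≤
        (Real.exp (-(c / 2 * s * K)) * E / (b : ℝ) ^ K) ^ c :=
      Real.rpow_le_rpow (by positivity) h3 hc.le
    have h5 : (Real.exp (-(c / 2 * s * K)) * E / (b : ℝ) ^ K) ^ c ≤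
        (Real.exp (-(c / 2 * s * K)) * E / (b : ℝ) ^ K) ^ (c / 2) := by
      rcases hR.eq_or_lt with h0 | h0
      · rw [← h0, Real.zero_rpow hc.ne', Real.zero_rpow (by positivity)]
      · exact Real.rpow_le_rpow_of_exponent_ge h0 h1' (by linarith)
    have h6 : C * (b : ℝ) ^ K ≤ max C 1 * (b : ℝ) ^ K :=
      mul_le_mul_of_nonneg_right (le_max_left _ _) hx.le
    exact mul_le_mul h6 (h4.trans h5) (by positivity) (by positivity)
  · have h2 : ∑ T ∈ (range K).powerset, p ^ #T * (1 - p) ^ (K - #T) *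
        ∑ U ∈ (range K).powerset, p ^ #U * (1 - p) ^ (K - #U) *
        (#(read1 b K ε A (fun y i => J ((y : ℤ) - ((∑ i ∈ T, b ^ i : ℕ) : ℤ)) i)
          (∑ i ∈ U, b ^ i)) : ℝ) ≤ (b : ℝ) ^ K := by
      refine hfin _ fun T _ => ?_
      have h3 : ∀ U ∈ (range K).powerset, p ^ #U * (1 - p) ^ (K - #U) *
        (#(read1 b K ε A (fun y i => J ((y : ℤ) - ((∑ i ∈ T, b ^ i : ℕ) : ℤ)) i)
          (∑ i ∈ U, b ^ i)) : ℝ) ≤ p ^ #U * (1 - p) ^ (K - #U) * (b : ℝ) ^ K := by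
        intro U _
        refine mul_le_mul_of_nonneg_left ?_ (hw0 U)
        have h5 : #(read1 b K ε A (fun y i => J ((y : ℤ) - ((∑ i ∈ T, b ^ i : ℕ) : ℤ)) i)
          (∑ i ∈ U, b ^ i)) ≤ b ^ K := by
          unfold read1
          refine (card_le_card (filter_subset _ _)).trans (by rw [card_range])
        exact_mod_cast h5
      refine (sum_le_sum h3).trans (le_of_eq ?_)
      rw [← sum_mul, sum_wt, one_mul]
    refine h2.trans ?_
    have h3 : (1 : ℝ) ≤ (Real.exp (-(c / 2 * s * K)) * E / (b : ℝ) ^ K) ^ (c / 2) :=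
      Real.one_le_rpow h1' (by positivity)
    have h4 : (b : ℝ) ^ K ≤ max C 1 * (b : ℝ) ^ K := by
      have := mul_le_mul_of_nonneg_right (le_max_right C 1) hx.le
      linarith
    have h5 : 0 ≤ max C 1 * (b : ℝ) ^ K := by positivity
    nlinarith

end Pool.Agent.Helper57.CH
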