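import Pool.Agent.Helper57.CH.Nr2

set_option autoImplicit false

/-! The difference of two one-sided noises. -/

namespace Pool.Agent.Helper57.CH

open Finset

/-- weights of a pair of bits -/
noncomputable def mu2 (p : ℝ) (ω : Bool × Bool) : ℝ :=
  (if ω.1 then p else 1 - p) * (if ω.2 then p else 1 - p)

def dif (ω : Bool × Bool) : ℤ := (if ω.2 then 1 else 0) - (if ω.1 then 1 else 0)

/-- sums over subsets as sums over sequences of bits -/
lemma sum_bits (K : ℕ) (p : ℝ) (G : (Fin K → Bool) → ℝ) (H : Finset ℕ → ℝ)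
    (hGH : ∀ τ : Fin K → Bool, H ((univ.filter fun i => τ i = true).map Fin.valEmbedding) = G τ) :
    ∑ T ∈ (range K).powerset, p ^ #T * (1 - p) ^ (K - #T) * H T =
      ∑ τ : Fin K → Bool, (∏ i, if τ i then p else 1 - p) * G τ := by
  classical
  symm
  refine sum_bij' (fun τ _ => (univ.filter fun i => τ i = true).map Fin.valEmbedding)
    (fun T _ => fun i : Fin K => decide ((i : ℕ) ∈ T)) ?_ ?_ ?_ ?_ ?_
  · intro τ _
    rw [mem_powerset]
    intro j hj
    rw [mem_map] at hj
    obtain ⟨i, -, rfl⟩ := hj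
    exact mem_range.2 i.2
  · intro T _
    exact mem_univ _
  · intro τ _
    funext i
    have h : ((i : ℕ) ∈ (univ.filter fun i => τ i = true).map Fin.valEmbedding) ↔ τ i = true := by
      rw [mem_map]
      constructor
      · rintro ⟨j, hj, hji⟩
        have : j = i := Fin.ext hji
        rw [← this]
        exact (mem_filter.1 hj).2
      · intro hi
        exact ⟨i, mem_filter.2 ⟨mem_univ _, hi⟩, rfl⟩
    by_cases h' : τ i = true
    · rw [h']
      exact decide_eq_true (h.2 h')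
    · rw [Bool.not_eq_true] at h'
      rw [h']
      exact decide_eq_false fun h2 => by
        rw [h.1 h2] at h'
        exact Bool.noConfusion h'
  · intro T hT
    ext j
    rw [mem_powerset] at hT
    simp only [mem_map, mem_filter, mem_univ, true_and, decide_eq_true_eq]
    constructor
    · rintro ⟨i, hi, rfl⟩
      exact hi
    · intro hj
      exact ⟨⟨j, mem_range.1 (hT hj)⟩, hj, rfl⟩
  · intro τ _
    rw [hGH]
    congr 1
    rw [card_map, prod_ite, prod_const, prod_const]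
    congr 2
    have h1 := card_filter_add_card_filter_not (s := (univ : Finset (Fin K)))
      (fun i => τ i = true)
    rw [card_univ, Fintype.card_fin] at h1
    omega

lemma sum_dif (p : ℝ) (x : ℤ) (hx : x ∈ ({-1, 0, 1} : Finset ℤ)) :
    ∑ w ∈ (univ : Finset (Bool × Bool)).filter (fun w => dif w = x), mu2 p w =
      if x = 0 then 1 - 2 * p * (1 - p) else 2 * p * (1 - p) / 2 := by
  rw [mem_insert, mem_insert, mem_singleton] at hx
  rw [sum_filter, Fintype.sum_prod_type]
  rcases hx with rfl | rfl | rfl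
  · simp [dif, mu2]
    ring
  · simp [dif, mu2]
    ring
  · simp [dif, mu2]
    ring

theorem stPush : StPush := by
  classical
  intro b K p F
  have h0 : ∀ τ : Fin K → Bool,
      (((∑ i ∈ (univ.filter fun i => τ i = true).map Fin.valEmbedding, b ^ i : ℕ) : ℕ) : ℤ) =
        ∑ i : Fin K, (if τ i then 1 else 0) * (b : ℤ) ^ (i : ℕ) := by
    intro τ
    rw [sum_map, sum_filter]
    push_cast
    refine sum_congr rfl fun i _ => ?_
    split_ifs <;> simp
  have h1 : ∑ T ∈ (range K).powerset, ∑ U ∈ (range K).powerset, p ^ #T * (1 - p) ^ (K - #T) *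
      (p ^ #U * (1 - p) ^ (K - #U)) *
        F (((∑ i ∈ U, b ^ i : ℕ) : ℤ) - ((∑ i ∈ T, b ^ i : ℕ) : ℤ)) =
      ∑ T ∈ (range K).powerset, p ^ #T * (1 - p) ^ (K - #T) *
        ∑ U ∈ (range K).powerset, p ^ #U * (1 - p) ^ (K - #U) *
          F (((∑ i ∈ U, b ^ i : ℕ) : ℤ) - ((∑ i ∈ T, b ^ i : ℕ) : ℤ)) := by
    refine sum_congr rfl fun T _ => ?_
    rw [mul_sum]
    refine sum_congr rfl fun U _ => ?_
    ring
  have h2 : ∀ t : ℤ, ∑ U ∈ (range K).powerset, p ^ #U * (1 - p) ^ (K - #U) *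
      F (((∑ i ∈ U, b ^ i : ℕ) : ℤ) - t) =
      ∑ σ : Fin K → Bool, (∏ i, if σ i then p else 1 - p) *
        F (∑ i : Fin K, (if σ i then 1 else 0) * (b : ℤ) ^ (i : ℕ) - t) := fun t =>
    sum_bits K p _ _ fun τ => by rw [h0]
  have h3 : ∑ T ∈ (range K).powerset, p ^ #T * (1 - p) ^ (K - #T) *
        ∑ U ∈ (range K).powerset, p ^ #U * (1 - p) ^ (K - #U) *
          F (((∑ i ∈ U, b ^ i : ℕ) : ℤ) - ((∑ i ∈ T, b ^ i : ℕ) : ℤ)) =
      ∑ τ : Fin K → Bool, (∏ i, if τ i then p else 1 - p) *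
        ∑ σ : Fin K → Bool, (∏ i, if σ i then p else 1 - p) *
          F (∑ i : Fin K, (if σ i then 1 else 0) * (b : ℤ) ^ (i : ℕ) -
            ∑ i : Fin K, (if τ i then 1 else 0) * (b : ℤ) ^ (i : ℕ)) := by
    refine sum_bits K p _ (fun T => ∑ U ∈ (range K).powerset, p ^ #U * (1 - p) ^ (K - #U) *
          F (((∑ i ∈ U, b ^ i : ℕ) : ℤ) - ((∑ i ∈ T, b ^ i : ℕ) : ℤ))) fun τ => ?_
    show ∑ U ∈ (range K).powerset, p ^ #U * (1 - p) ^ (K - #U) * F (((∑ i ∈ U, b ^ i : ℕ) : ℤ) -
      (((∑ i ∈ (univ.filter fun i => τ i = true).map Fin.valEmbedding, b ^ i : ℕ) : ℕ) : ℤ)) = _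
    rw [h2, h0]
  rw [h1, h3]
  -- pairs
  have h4 : ∑ τ : Fin K → Bool, (∏ i, if τ i then p else 1 - p) *
        ∑ σ : Fin K → Bool, (∏ i, if σ i then p else 1 - p) *
          F (∑ i : Fin K, (if σ i then 1 else 0) * (b : ℤ) ^ (i : ℕ) -
            ∑ i : Fin K, (if τ i then 1 else 0) * (b : ℤ) ^ (i : ℕ)) =
      ∑ ω : Fin K → Bool × Bool, (∏ i, mu2 p (ω i)) * F (zz b (fun i => dif (ω i))) := by
    have h5 : ∑ τ : Fin K → Bool, (∏ i, if τ i then p else 1 - p) *
        ∑ σ : Fin K → Bool, (∏ i, if σ i then p else 1 - p) *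
          F (∑ i : Fin K, (if σ i then 1 else 0) * (b : ℤ) ^ (i : ℕ) -
            ∑ i : Fin K, (if τ i then 1 else 0) * (b : ℤ) ^ (i : ℕ)) =
      ∑ x : (Fin K → Bool) × (Fin K → Bool), (∏ i, mu2 p (x.1 i, x.2 i)) *
        F (zz b (fun i => dif (x.1 i, x.2 i))) := by
      rw [Fintype.sum_prod_type]
      refine sum_congr rfl fun τ _ => ?_
      rw [mul_sum]
      refine sum_congr rfl fun σ _ => ?_
      have h6 : (∏ i, mu2 p (τ i, σ i)) =
          (∏ i, if τ i then p else 1 - p) * ∏ i, if σ i then p else 1 - p := by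
        rw [← prod_mul_distrib]
        rfl
      have h7 : zz b (fun i => dif (τ i, σ i)) =
          ∑ i : Fin K, (if σ i then 1 else 0) * (b : ℤ) ^ (i : ℕ) -
            ∑ i : Fin K, (if τ i then 1 else 0) * (b : ℤ) ^ (i : ℕ) := by
        rw [← sum_sub_distrib]
        unfold zz
        refine sum_congr rfl fun i _ => ?_
        show ((if σ i then 1 else 0) - (if τ i then 1 else 0)) * (b : ℤ) ^ (i : ℕ) = _
        ring
      rw [h6, h7]
      ring
    rw [h5]
    symm
    refine Fintype.sum_equiv (Equiv.arrowProdEquivProdArrow (Fin K) (fun _ => Bool)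
      (fun _ => Bool)) _ _ fun ω => ?_
    rfl
  rw [h4]
  have h8 : ∀ ω ∈ (univ : Finset (Fin K → Bool × Bool)), (fun i => dif (ω i)) ∈ states K := by
    intro ω _
    refine Fintype.mem_piFinset.2 fun i => ?_
    rcases ω i with ⟨a, c⟩
    cases a <;> cases c <;> simp [dif]
  rw [← sum_fiberwise_of_maps_to h8]
  refine sum_congr rfl fun ξ hξ => ?_
  have h9 : ∑ ω ∈ (univ : Finset (Fin K → Bool × Bool)) with (fun i => dif (ω i)) = ξ,
      (∏ i, mu2 p (ω i)) * F (zz b (fun i => dif (ω i))) =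
      (∑ ω ∈ (univ : Finset (Fin K → Bool × Bool)) with (fun i => dif (ω i)) = ξ,
        ∏ i, mu2 p (ω i)) * F (zz b ξ) := by
    rw [sum_mul]
    refine sum_congr rfl fun ω hω => ?_
    rw [(mem_filter.1 hω).2]
  rw [h9]
  congr 1
  have h10 : (univ : Finset (Fin K → Bool × Bool)).filter (fun ω => (fun i => dif (ω i)) = ξ) =
      Fintype.piFinset fun i => (univ : Finset (Bool × Bool)).filter (fun w => dif w = ξ i) := by
    ext ω
    rw [mem_filter, Fintype.mem_piFinset]
    constructor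
    · rintro ⟨-, h⟩ i
      exact mem_filter.2 ⟨mem_univ _, congrFun h i⟩
    · intro h
      exact ⟨mem_univ _, funext fun i => (mem_filter.1 (h i)).2⟩
  rw [h10, ← prod_univ_sum]
  unfold prob
  refine prod_congr rfl fun i _ => ?_
  exact sum_dif p (ξ i) (Fintype.mem_piFinset.1 hξ i)

theorem stNr2_of (hnr : StNr) : StNr2 := stNr2 hnr stPush

end Pool.Agent.Helper57.CH
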