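import Pool.Agent.Helper57.CH.Both

set_option autoImplicit false

/-! Both parts with common constants, square form. -/

namespace Pool.Agent.Helper57.CH

open Finset
open Pool.Agent.Helper57.U2 (rep upTo)

/-- one-sided, square form -/
def StNrs : Prop := ∀ (b : ℕ) (ε : ℝ), 2 ≤ b → 0 < ε → ∃ c C : ℝ, 0 < c ∧ 0 < C ∧
  ∀ (A : Set ℕ) (K : ℕ) (p : ℝ), 0 < p → p ≤ 1 / 2 → ∀ J : ℕ → ℕ → ℕ,
    (∑ T ∈ (range K).powerset, p ^ #T * (1 - p) ^ (K - #T) *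
      #(read1 b K ε A J (∑ i ∈ T, b ^ i))) ^ 2 ≤
    C * (b : ℝ) ^ K * Real.exp (-(c * p * K)) * ∑ n ∈ range (2 * b ^ K), (rep A n : ℝ) ^ 2

/-- both parts, common constants, square form -/
def StBoth2 : Prop := ∀ (b l : ℕ) (ε : ℝ), 2 ≤ b → 1 ≤ l → 0 < ε → ∃ c C : ℝ, 0 < c ∧ 0 < C ∧
  ∀ (A : Set ℕ) (K : ℕ) (s : ℝ), 0 < s → s ≤ 1 / 2 →
    ∑ ξ ∈ states K, prob s ξ * bad3 b l K ε (upTo A (b ^ K)) (zz b ξ) ≤
      C * Real.exp (-(c * s * K)) * ∑ n ∈ range (2 * b ^ K), (rep A n : ℝ) ^ 2 ∧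
    ∀ J : ℤ → ℕ → ℕ, (∑ ξ ∈ states K, prob s ξ * #(read2 b K ε A J (zz b ξ))) ^ 2 ≤
      C * Real.exp (-(c * s * K)) * (b : ℝ) ^ K * ∑ n ∈ range (2 * b ^ K), (rep A n : ℝ) ^ 2

theorem both2 (hCH : StCH3) (hnr : StNrs) : StBoth2 := by
  classical
  intro b l ε hb hl hε
  obtain ⟨c₁, C₁, hc₁, hC₁, h₁⟩ := hCH b l hb hl ε hε
  obtain ⟨c₂, C₂, hc₂, hC₂, h₂⟩ := hnr b ε hb hε
  obtain ⟨c, hc⟩ : ∃ c, c = min c₁ (c₂ / 2) := ⟨_, rfl⟩
  obtain ⟨C, hC⟩ : ∃ C, C = max C₁ C₂ := ⟨_, rfl⟩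
  have hc0 : 0 < c := by rw [hc]; exact lt_min hc₁ (by positivity)
  have hcc₁ : c ≤ c₁ := by rw [hc]; exact min_le_left _ _
  have hcc₂ : c ≤ c₂ / 2 := by rw [hc]; exact min_le_right _ _
  have hCC₁ : C₁ ≤ C := by rw [hC]; exact le_max_left _ _
  have hCC₂ : C₂ ≤ C := by rw [hC]; exact le_max_right _ _
  refine ⟨c, C, hc0, by linarith, fun A K s hs hs2 => ?_⟩
  obtain ⟨E, hE⟩ : ∃ E : ℝ, E = ∑ n ∈ range (2 * b ^ K), (rep A n : ℝ) ^ 2 := ⟨_, rfl⟩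
  have hE0 : 0 ≤ E := by rw [hE]; exact sum_nonneg fun _ _ => by positivity
  have hx : (0 : ℝ) < (b : ℝ) ^ K := by
    have : 0 < b := by omega
    positivity
  have hK0 : (0 : ℝ) ≤ K := Nat.cast_nonneg _
  refine ⟨?_, fun J => ?_⟩
  · refine (h₁ A K s hs hs2).trans ?_
    rw [← hE]
    refine mul_le_mul_of_nonneg_right ?_ hE0
    have hexp : Real.exp (-(c₁ * s * K)) ≤ Real.exp (-(c * s * K)) := by
      refine Real.exp_le_exp.2 ?_
      have h5 : c * s * K ≤ c₁ * s * K :=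
        mul_le_mul_of_nonneg_right (mul_le_mul_of_nonneg_right hcc₁ hs.le) hK0
      linarith
    exact mul_le_mul hCC₁ hexp (Real.exp_pos _).le (by linarith)
  · rw [← hE]
    obtain ⟨p, hp⟩ : ∃ p : ℝ, p = (1 - √(1 - 2 * s)) / 2 := ⟨_, rfl⟩
    have hsq : √(1 - 2 * s) ^ 2 = 1 - 2 * s := Real.sq_sqrt (by linarith)
    have hsq0 : 0 ≤ √(1 - 2 * s) := Real.sqrt_nonneg _
    have hps : 2 * p * (1 - p) = s := by rw [hp]; nlinarith
    have hp2 : p ≤ 1 / 2 := by rw [hp]; linarith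
    have hp0 : 0 < p := by
      by_contra hneg
      have : 2 * p * (1 - p) ≤ 0 := by
        have h1 : 0 ≤ 1 - p := by linarith
        have h2 : p ≤ 0 := not_lt.1 hneg
        nlinarith
      linarith
    have hps2 : s / 2 ≤ p := by nlinarith
    have hw0 : ∀ T : Finset ℕ, 0 ≤ p ^ #T * (1 - p) ^ (K - #T) := fun T => by
      have : 0 ≤ 1 - p := by linarith
      positivity
    have key := stPush b K p (fun z => (#(read2 b K ε A J z) : ℝ))
    rw [hps] at key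
    rw [← key]
    have h1 : ∀ T ∈ (range K).powerset, ∑ U ∈ (range K).powerset, p ^ #T * (1 - p) ^ (K - #T) *
        (p ^ #U * (1 - p) ^ (K - #U)) *
          (#(read2 b K ε A J (((∑ i ∈ U, b ^ i : ℕ) : ℤ) - ((∑ i ∈ T, b ^ i : ℕ) : ℤ))) : ℝ) =
        p ^ #T * (1 - p) ^ (K - #T) * ∑ U ∈ (range K).powerset, p ^ #U * (1 - p) ^ (K - #U) *
          (#(read1 b K ε A (fun y i => J ((y : ℤ) - ((∑ i ∈ T, b ^ i : ℕ) : ℤ)) i)
            (∑ i ∈ U, b ^ i)) : ℝ) := by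
      intro T _
      rw [mul_sum]
      refine sum_congr rfl fun U _ => ?_
      rw [read2_eq]
      ring
    rw [sum_congr rfl h1]
    obtain ⟨R, hR⟩ : ∃ R, R = C * Real.exp (-(c * s * K)) * (b : ℝ) ^ K * E := ⟨_, rfl⟩
    have hC0 : 0 < C := by linarith
    have hR0 : 0 ≤ R := by rw [hR]; positivity
    have h3 : ∀ T ∈ (range K).powerset, ∑ U ∈ (range K).powerset,
        p ^ #U * (1 - p) ^ (K - #U) *
          (#(read1 b K ε A (fun y i => J ((y : ℤ) - ((∑ i ∈ T, b ^ i : ℕ) : ℤ)) i)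
            (∑ i ∈ U, b ^ i)) : ℝ) ≤ √R := by
      intro T _
      refine Real.le_sqrt_of_sq_le ?_
      refine (h₂ A K p hp0 hp2 _).trans ?_
      rw [← hE, hR]
      refine mul_le_mul_of_nonneg_right ?_ hE0
      have h4 : Real.exp (-(c₂ * p * K)) ≤ Real.exp (-(c * s * K)) := by
        refine Real.exp_le_exp.2 ?_
        have h5 : c * s * K ≤ c₂ * p * K := by
          have h6 : c * s ≤ c₂ * p := by nlinarith
          exact mul_le_mul_of_nonneg_right h6 hK0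
        linarith
      calc C₂ * (b : ℝ) ^ K * Real.exp (-(c₂ * p * K)) ≤ C * (b : ℝ) ^ K *
            Real.exp (-(c * s * K)) :=
            mul_le_mul (mul_le_mul_of_nonneg_right hCC₂ hx.le) h4 (Real.exp_pos _).le
              (by positivity)
        _ = _ := by ring
    have h4 : ∑ T ∈ (range K).powerset, p ^ #T * (1 - p) ^ (K - #T) *
          ∑ U ∈ (range K).powerset, p ^ #U * (1 - p) ^ (K - #U) *
          (#(read1 b K ε A (fun y i => J ((y : ℤ) - ((∑ i ∈ T, b ^ i : ℕ) : ℤ)) i)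
            (∑ i ∈ U, b ^ i)) : ℝ) ≤ √R := by
      have h2 := sum_le_sum fun T hT => mul_le_mul_of_nonneg_left (h3 T hT) (hw0 T)
      refine h2.trans (le_of_eq ?_)
      rw [← sum_mul, sum_wt, one_mul]
    have h5 : 0 ≤ ∑ T ∈ (range K).powerset, p ^ #T * (1 - p) ^ (K - #T) *
          ∑ U ∈ (range K).powerset, p ^ #U * (1 - p) ^ (K - #U) *
          (#(read1 b K ε A (fun y i => J ((y : ℤ) - ((∑ i ∈ T, b ^ i : ℕ) : ℤ)) i)
            (∑ i ∈ U, b ^ i)) : ℝ) :=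
      sum_nonneg fun T _ => mul_nonneg (hw0 T) (sum_nonneg fun U _ =>
        mul_nonneg (hw0 U) (Nat.cast_nonneg _))
    rw [← hR]
    calc _ ≤ √R ^ 2 := pow_le_pow_left₀ h5 h4 2
      _ = R := Real.sq_sqrt hR0

end Pool.Agent.Helper57.CH
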