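import Pool.Agent.Helper57.CH.Both2

set_option autoImplicit false

/-! All representations of `n + z`, for sets with bounded representation function. -/

namespace Pool.Agent.Helper57.CH

open Finset
open Pool.Agent.Helper57.U2 (rep upTo)

open Classical in
noncomputable def allBad (b K : ℕ) (ε : ℝ) (A : Set ℕ) (z : ℤ) : Finset ℕ :=
  {n ∈ range (b ^ K) | ∃ a ∈ A, ∃ a' ∈ A, ∃ d ∈ A, ∃ d' ∈ A, a + a' = n ∧
    (d : ℤ) + d' = n + z ∧ ¬ Joint b 1 K ε a a' d}

lemma zz_lt (b K : ℕ) (hb : 2 ≤ b) (ξ : Fin K → ℤ) (hξ : ξ ∈ states K) :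
    zz b ξ < (b : ℤ) ^ K := by
  have h1 : zz b ξ ≤ ∑ i : Fin K, (b : ℤ) ^ (i : ℕ) := by
    unfold zz
    refine sum_le_sum fun i _ => ?_
    have h2 := Fintype.mem_piFinset.1 hξ i
    rw [mem_insert, mem_insert, mem_singleton] at h2
    have h3 : ξ i ≤ 1 := by
      rcases h2 with h | h | h <;> rw [h] <;> norm_num
    have h4 : (0 : ℤ) ≤ (b : ℤ) ^ (i : ℕ) := by positivity
    nlinarith
  have h2 : ∑ i : Fin K, (b : ℤ) ^ (i : ℕ) = ∑ i ∈ range K, (b : ℤ) ^ i :=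
    Fin.sum_univ_eq_sum_range (fun i => (b : ℤ) ^ i) K
  have h3 : ∑ i ∈ range K, b ^ i < b ^ K := Nat.geomSum_lt hb fun k hk => mem_range.1 hk
  have h4 : ((∑ i ∈ range K, b ^ i : ℕ) : ℤ) < ((b ^ K : ℕ) : ℤ) := by exact_mod_cast h3
  push_cast at h4
  linarith

lemma joint_step (b K : ℕ) (hb : 2 ≤ b) (ε : ℝ) (hε : 0 < ε) (hK : (4 + ε) / ε ≤ K)
    (a a' d : ℕ) (h : Joint b 1 (K + 1) (ε / 2) a a' d) : Joint b 1 K ε a a' d := by
  intro u v w hu hv hw
  have h1 := h u v w hu hv hw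
  have h2 : (4 + ε) ≤ ε * K := by
    rw [div_le_iff₀ hε] at hK
    linarith
  obtain ⟨P, hP⟩ : ∃ P : ℕ → Prop, P = fun i => a / b ^ i % b ^ 1 = u ∧ a' / b ^ i % b ^ 1 = v ∧
    d / b ^ i % b ^ 1 = w := ⟨_, rfl⟩
  classical
  have e1 : #{i ∈ range K | a / b ^ i % b ^ 1 = u ∧ a' / b ^ i % b ^ 1 = v ∧
      d / b ^ i % b ^ 1 = w} = #{i ∈ range K | P i} := by
    rw [hP]
    congr
  have e2 : #{i ∈ range (K + 1) | a / b ^ i % b ^ 1 = u ∧ a' / b ^ i % b ^ 1 = v ∧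
      d / b ^ i % b ^ 1 = w} = #{i ∈ range (K + 1) | P i} := by
    rw [hP]
    congr
  rw [e2] at h1
  rw [e1]
  have h3 : #{i ∈ range K | P i} ≤ #{i ∈ range (K + 1) | P i} :=
    card_le_card (filter_subset_filter _ (range_mono (Nat.le_succ K)))
  have h4 : #{i ∈ range (K + 1) | P i} ≤ #{i ∈ range K | P i} + 1 := by
    rw [range_add_one, filter_insert]
    split_ifs
    · exact card_insert_le _ _
    · omega
  have h3' : (#{i ∈ range K | P i} : ℝ) ≤ #{i ∈ range (K + 1) | P i} := by exact_mod_cast h3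
  have h4' : (#{i ∈ range (K + 1) | P i} : ℝ) ≤ #{i ∈ range K | P i} + 1 := by exact_mod_cast h4
  have h5 : (1 : ℝ) ≤ ((b : ℝ) ^ 1) ^ 3 := by
    have : (1 : ℝ) ≤ b := by
      have : 1 ≤ b := by omega
      exact_mod_cast this
    exact one_le_pow₀ (one_le_pow₀ this)
  have h6 : 1 / ((b : ℝ) ^ 1) ^ 3 ≤ 1 := by
    rw [div_le_one (by linarith)]
    exact h5
  have h7 : 0 ≤ 1 / ((b : ℝ) ^ 1) ^ 3 := by positivity
  have h8 : ((K + 1 : ℕ) : ℝ) / ((b : ℝ) ^ 1) ^ 3 = K / ((b : ℝ) ^ 1) ^ 3 +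
      1 / ((b : ℝ) ^ 1) ^ 3 := by
    push_cast
    ring
  rw [h8] at h1
  push_cast at h1
  obtain ⟨h9, h10⟩ := abs_le.1 h1
  rw [abs_le]
  constructor <;> nlinarith

lemma allBad_le (b K : ℕ) (hb : 2 ≤ b) (ε : ℝ) (hε : 0 < ε) (hK : (4 + ε) / ε ≤ K)
    (A : Set ℕ) (z : ℤ) (hz : z < (b : ℤ) ^ K) :
    #(allBad b K ε A z) ≤ bad3 b 1 (K + 1) (ε / 2) (upTo A (b ^ (K + 1))) z := by
  classical
  have h0 : ∀ n ∈ allBad b K ε A z, ∃ t : (ℕ × ℕ) × (ℕ × ℕ),
      t ∈ ((upTo A (b ^ (K + 1)) ×ˢ upTo A (b ^ (K + 1))) ×ˢ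
        (upTo A (b ^ (K + 1)) ×ˢ upTo A (b ^ (K + 1)))).filter (fun t =>
        (t.1.1 : ℤ) + t.1.2 + z = t.2.1 + t.2.2 ∧
          ¬ Joint b 1 (K + 1) (ε / 2) t.1.1 t.1.2 t.2.1) ∧ t.1.1 + t.1.2 = n := by
    intro n hn
    unfold allBad at hn
    rw [mem_filter, mem_range] at hn
    obtain ⟨hn, a, ha, a', ha', d, hd, d', hd', h1, h2, h3⟩ := hn
    have hbK : (b : ℤ) ^ (K + 1) = b * (b : ℤ) ^ K := by ring
    have hbK0 : (0 : ℤ) < (b : ℤ) ^ K := by
      have : 0 < b := by omega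
      positivity
    have hb2 : (2 : ℤ) ≤ b := by exact_mod_cast hb
    have hn' : (n : ℤ) < (b : ℤ) ^ K := by exact_mod_cast hn
    have hbig : (2 : ℤ) * (b : ℤ) ^ K ≤ (b : ℤ) ^ (K + 1) := by
      rw [hbK]
      exact mul_le_mul_of_nonneg_right hb2 hbK0.le
    have m1 : ∀ e ∈ A, (e : ℤ) < (b : ℤ) ^ (K + 1) → e ∈ upTo A (b ^ (K + 1)) := by
      intro e he h
      unfold upTo
      rw [mem_filter, mem_range]
      exact ⟨by exact_mod_cast h, he⟩
    have c1 : (a : ℤ) + a' = n := by exact_mod_cast h1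
    have c2 : (0 : ℤ) ≤ a := Int.natCast_nonneg _
    have c3 : (0 : ℤ) ≤ a' := Int.natCast_nonneg _
    have c4 : (0 : ℤ) ≤ d := Int.natCast_nonneg _
    have c5 : (0 : ℤ) ≤ d' := Int.natCast_nonneg _
    refine ⟨((a, a'), (d, d')), ?_, h1⟩
    rw [mem_filter, mem_product, mem_product, mem_product]
    refine ⟨⟨⟨m1 a ha (by linarith), m1 a' ha' (by linarith)⟩,
      ⟨m1 d hd (by linarith), m1 d' hd' (by linarith)⟩⟩, ?_, ?_⟩
    · show (a : ℤ) + a' + z = d + d'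
      linarith
    · exact fun h => h3 (joint_step b K hb ε hε hK a a' d h)
  choose! f hf hfn using h0
  unfold bad3
  have h1 : #(allBad b K ε A z) = #((allBad b K ε A z).image f) := by
    rw [card_image_of_injOn]
    intro n hn m hm hnm
    rw [← hfn n hn, ← hfn m hm, hnm]
  rw [h1]
  refine card_le_card fun t ht => ?_
  rw [mem_image] at ht
  obtain ⟨n, hn, rfl⟩ := ht
  convert hf n hn

theorem all_reps (hCH : StCH3) (b g : ℕ) (ε : ℝ) (hb : 2 ≤ b) (hε : 0 < ε) :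
    ∃ c C : ℝ, 0 < c ∧ 0 < C ∧ ∀ A : Set ℕ, (∀ n, rep A n ≤ g) →
      ∀ (K : ℕ) (s : ℝ), 0 < s → s ≤ 1 / 2 →
        ∑ ξ ∈ states K, prob s ξ * #(allBad b K ε A (zz b ξ)) ≤
          C * Real.exp (-(c * s * K)) * (b : ℝ) ^ K := by
  classical
  obtain ⟨c, C, hc, hC, h⟩ := hCH b 1 hb le_rfl (ε / 2) (by positivity)
  have hb0 : (0 : ℝ) < b := by
    have : 0 < b := by omega
    exact_mod_cast this
  refine ⟨c, 4 * C * g ^ 2 * b + Real.exp (c * ((4 + ε) / ε)), hc, by positivity,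
    fun A hA K s hs hs2 => ?_⟩
  have hx : (0 : ℝ) < (b : ℝ) ^ K := by positivity
  have hprob : ∀ (L : ℕ) (ξ : Fin L → ℤ), 0 ≤ prob s ξ := fun L ξ => by
    unfold prob
    refine prod_nonneg fun i _ => ?_
    split_ifs <;> linarith
  have hexp0 := Real.exp_pos (-(c * s * K))
  rcases le_total ((4 + ε) / ε) (K : ℝ) with hK | hK
  · -- large K
    have h1 : ∀ ξ ∈ states K, prob s ξ * (#(allBad b K ε A (zz b ξ)) : ℝ) ≤
        2 * (prob s (Fin.snoc (α := fun _ => ℤ) ξ 0) *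
          bad3 b 1 (K + 1) (ε / 2) (upTo A (b ^ (K + 1)))
            (zz b (Fin.snoc (α := fun _ => ℤ) ξ 0))) := by
      intro ξ hξ
      have h2 : prob s (Fin.snoc (α := fun _ => ℤ) ξ 0) = prob s ξ * (1 - s) := by
        unfold prob
        rw [Fin.prod_univ_castSucc, Fin.snoc_last, if_pos rfl]
        simp only [Fin.snoc_castSucc]
      have h3 : zz b (Fin.snoc (α := fun _ => ℤ) ξ 0) = zz b ξ := by
        unfold zz
        rw [Fin.sum_univ_castSucc, Fin.snoc_last, zero_mul, add_zero]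
        simp only [Fin.snoc_castSucc, Fin.val_castSucc]
      rw [h2, h3]
      have h4 : (#(allBad b K ε A (zz b ξ)) : ℝ) ≤
          bad3 b 1 (K + 1) (ε / 2) (upTo A (b ^ (K + 1))) (zz b ξ) := by
        exact_mod_cast allBad_le b K hb ε hε hK A _ (zz_lt b K hb ξ hξ)
      have h5 := hprob K ξ
      have h6 : 0 ≤ (bad3 b 1 (K + 1) (ε / 2) (upTo A (b ^ (K + 1))) (zz b ξ) : ℝ) :=
        Nat.cast_nonneg _
      have h7 : prob s ξ * (#(allBad b K ε A (zz b ξ)) : ℝ) ≤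
          prob s ξ * bad3 b 1 (K + 1) (ε / 2) (upTo A (b ^ (K + 1))) (zz b ξ) :=
        mul_le_mul_of_nonneg_left h4 h5
      have h8 : 0 ≤ prob s ξ * bad3 b 1 (K + 1) (ε / 2) (upTo A (b ^ (K + 1))) (zz b ξ) :=
        mul_nonneg h5 h6
      nlinarith
    have h2 : ∑ ξ ∈ states K, (prob s (Fin.snoc (α := fun _ => ℤ) ξ 0) *
          (bad3 b 1 (K + 1) (ε / 2) (upTo A (b ^ (K + 1)))
            (zz b (Fin.snoc (α := fun _ => ℤ) ξ 0)) : ℝ)) ≤
        ∑ ξ ∈ states (K + 1), prob s ξ *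
          bad3 b 1 (K + 1) (ε / 2) (upTo A (b ^ (K + 1))) (zz b ξ) := by
      have hinj : Set.InjOn (fun ξ : Fin K → ℤ => (Fin.snoc (α := fun _ => ℤ) ξ 0 : Fin (K + 1) → ℤ))
          (states K) := by
        intro ξ _ η _ h'
        funext i
        have := congrFun h' i.castSucc
        simpa only [Fin.snoc_castSucc] using this
      rw [← sum_image (f := fun ξ : Fin (K + 1) → ℤ => prob s ξ *
        (bad3 b 1 (K + 1) (ε / 2) (upTo A (b ^ (K + 1))) (zz b ξ) : ℝ)) hinj]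
      refine sum_le_sum_of_subset_of_nonneg ?_ fun ξ _ _ =>
        mul_nonneg (hprob _ _) (Nat.cast_nonneg _)
      intro η hη
      rw [mem_image] at hη
      obtain ⟨ξ, hξ, rfl⟩ := hη
      refine Fintype.mem_piFinset.2 fun i => ?_
      refine Fin.lastCases ?_ (fun j => ?_) i
      · rw [Fin.snoc_last]
        decide
      · rw [Fin.snoc_castSucc]
        exact Fintype.mem_piFinset.1 hξ j
    have h3 := h A (K + 1) s hs hs2
    have h4 : ∑ n ∈ range (2 * b ^ (K + 1)), (rep A n : ℝ) ^ 2 ≤ 2 * (b : ℝ) ^ (K + 1) * g ^ 2 := by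
      have h5 : ∀ n ∈ range (2 * b ^ (K + 1)), (rep A n : ℝ) ^ 2 ≤ (g : ℝ) ^ 2 := fun n _ => by
        have : (rep A n : ℝ) ≤ g := by exact_mod_cast hA n
        exact pow_le_pow_left₀ (Nat.cast_nonneg _) this 2
      refine (sum_le_sum h5).trans (le_of_eq ?_)
      rw [sum_const, card_range, nsmul_eq_mul]
      push_cast
      ring
    have h5 : Real.exp (-(c * s * ((K + 1 : ℕ) : ℝ))) ≤ Real.exp (-(c * s * K)) := by
      refine Real.exp_le_exp.2 ?_
      push_cast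
      nlinarith [mul_pos hc hs]
    calc ∑ ξ ∈ states K, prob s ξ * (#(allBad b K ε A (zz b ξ)) : ℝ)
        ≤ ∑ ξ ∈ states K, 2 * (prob s (Fin.snoc (α := fun _ => ℤ) ξ 0) *
          bad3 b 1 (K + 1) (ε / 2) (upTo A (b ^ (K + 1)))
            (zz b (Fin.snoc (α := fun _ => ℤ) ξ 0))) := sum_le_sum h1
      _ = 2 * ∑ ξ ∈ states K, (prob s (Fin.snoc (α := fun _ => ℤ) ξ 0) *
          bad3 b 1 (K + 1) (ε / 2) (upTo A (b ^ (K + 1)))
            (zz b (Fin.snoc (α := fun _ => ℤ) ξ 0))) := by rw [mul_sum]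
      _ ≤ 2 * (C * Real.exp (-(c * s * K)) * (2 * (b : ℝ) ^ (K + 1) * g ^ 2)) := by
          refine mul_le_mul_of_nonneg_left ?_ (by norm_num)
          refine (h2.trans h3).trans ?_
          refine mul_le_mul (mul_le_mul_of_nonneg_left h5 hC.le) h4 ?_ (by positivity)
          exact sum_nonneg fun _ _ => by positivity
      _ = 4 * C * g ^ 2 * b * Real.exp (-(c * s * K)) * (b : ℝ) ^ K := by ring
      _ ≤ _ := by
          refine mul_le_mul_of_nonneg_right ?_ hx.le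
          refine mul_le_mul_of_nonneg_right ?_ hexp0.le
          have := Real.exp_pos (c * ((4 + ε) / ε))
          linarith
  · -- small K
    have h1 : ∑ ξ ∈ states K, prob s ξ * (#(allBad b K ε A (zz b ξ)) : ℝ) ≤ (b : ℝ) ^ K := by
      have h3 : ∀ ξ ∈ states K, prob s ξ * (#(allBad b K ε A (zz b ξ)) : ℝ) ≤
          prob s ξ * (b : ℝ) ^ K := by
        intro ξ _
        refine mul_le_mul_of_nonneg_left ?_ (hprob _ ξ)
        have h5 : #(allBad b K ε A (zz b ξ)) ≤ b ^ K := by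
          unfold allBad
          exact (card_le_card (filter_subset _ _)).trans (by rw [card_range])
        exact_mod_cast h5
      refine (sum_le_sum h3).trans (le_of_eq ?_)
      rw [← sum_mul, sum_prob, one_mul]
    refine h1.trans ?_
    have h2 : 1 ≤ Real.exp (c * ((4 + ε) / ε)) * Real.exp (-(c * s * K)) := by
      rw [← Real.exp_add]
      refine Real.one_le_exp ?_
      have h3 : c * s * K ≤ c * ((4 + ε) / ε) := by
        have h4 : s * K ≤ (4 + ε) / ε := by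
          have : (0 : ℝ) ≤ K := Nat.cast_nonneg _
          nlinarith
        calc c * s * K = c * (s * K) := by ring
          _ ≤ _ := mul_le_mul_of_nonneg_left h4 hc.le
      linarith
    have h3 : 0 ≤ 4 * C * (g : ℝ) ^ 2 * b * Real.exp (-(c * s * K)) := by positivity
    have h4 : 1 ≤ (4 * C * (g : ℝ) ^ 2 * b + Real.exp (c * ((4 + ε) / ε))) *
        Real.exp (-(c * s * K)) := by
      rw [add_mul]
      linarith
    have := mul_le_mul_of_nonneg_right h4 hx.le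
    linarith

end Pool.Agent.Helper57.CH
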