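import Pool.Agent.Helper57.CH.Core

set_option autoImplicit false

/-! Assembly. -/

namespace Pool.Agent.Helper57.CH

open Finset
open Pool.Agent.Helper7.SC (e nuhat Ecyc stA4)
open Pool.Agent.Helper57.U2 (rep upTo)

lemma normal_mono {b l K : ℕ} {ε ε' : ℝ} (h : ε ≤ ε') {d : ℤ} (hd : Normal b l K ε d) :
    Normal b l K ε' d := fun u hu =>
  (hd u hu).trans (mul_le_mul_of_nonneg_right h (Nat.cast_nonneg K))

lemma energy_le (A : Set ℕ) (x : ℕ) :
    Ecyc x (upTo A x) ≤ 2 * ∑ n ∈ range (2 * x), (rep A n : ℝ) ^ 2 := by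
  classical
  have h1 := stA4 x (upTo A x) (by
    intro n hn
    unfold upTo at hn
    exact (mem_filter.1 hn).1)
  refine h1.trans (mul_le_mul_of_nonneg_left ?_ (by norm_num))
  exact Pool.Agent.Helper57.U2.sum_repF_le A x

theorem stCH (hMu : StMu) (hG : StG) (hDg : StDg) : StCH := by
  classical
  intro b l hb hl ε' hε'
  obtain ⟨ε, hεe⟩ : ∃ ε : ℝ, ε = min ε' 1 := ⟨_, rfl⟩
  have hε : 0 < ε := by rw [hεe]; exact lt_min hε' one_pos
  have hε1 : ε ≤ 1 := by rw [hεe]; exact min_le_right _ _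
  have hεε' : ε ≤ ε' := by rw [hεe]; exact min_le_left _ _
  obtain ⟨q, c₀, hq1, hql, hc₀, hc₀1, hcore⟩ := core hMu hG b l hb hl ε hε hε1
  have hqr : (1 : ℝ) ≤ q := by exact_mod_cast hq1
  have hb0 : (0 : ℝ) < b := by
    have : 0 < b := by omega
    exact_mod_cast this
  have hbl : (0 : ℝ) < (b : ℝ) ^ l := by positivity
  have hbl1 : (1 : ℝ) ≤ (b : ℝ) ^ l := one_le_pow₀ (by
    have : 1 ≤ b := by omega
    exact_mod_cast this)
  obtain ⟨c, hc⟩ : ∃ c : ℝ, c = c₀ / q := ⟨_, rfl⟩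
  have hc0 : 0 < c := by rw [hc]; positivity
  obtain ⟨K₀, hK₀⟩ : ∃ K₀ : ℝ, K₀ = 4 * (b : ℝ) ^ l * q / ε := ⟨_, rfl⟩
  have hK₀0 : 0 < K₀ := by rw [hK₀]; positivity
  obtain ⟨C, hC⟩ : ∃ C : ℝ, C = 2 * ((b : ℝ) ^ l * q * Real.exp 2 + Real.exp (c * K₀)) := ⟨_, rfl⟩
  have hC0 : 0 < C := by rw [hC]; positivity
  refine ⟨c, C, hc0, hC0, fun A K s hs hs1 => ?_⟩
  obtain ⟨S, hS⟩ : ∃ S : Finset ℕ, S = upTo A (b ^ K) := ⟨_, rfl⟩
  obtain ⟨E, hE⟩ : ∃ E : ℝ, E = ∑ n ∈ range (2 * b ^ K), (rep A n : ℝ) ^ 2 := ⟨_, rfl⟩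
  have hEn : Ecyc (b ^ K) S ≤ 2 * E := by rw [hS, hE]; exact energy_le A (b ^ K)
  have hEc : 0 ≤ Ecyc (b ^ K) S := by
    unfold Ecyc
    refine sum_nonneg fun _ _ => sum_nonneg fun _ _ => sum_nonneg fun _ _ => sum_nonneg fun _ _ => ?_
    split_ifs <;> norm_num
  rw [← hS, ← hE]
  have hpr : ∀ ξ : Fin K → ℤ, 0 ≤ prob s ξ := fun ξ => by
    unfold prob
    refine prod_nonneg fun i _ => ?_
    split_ifs <;> linarith
  -- `bad` as a sum
  have hbad : ∀ z : ℤ, (bad b l K ε' S z : ℝ) = ∑ a ∈ S, ∑ a' ∈ S, ∑ c₁ ∈ S, ∑ c₁' ∈ S,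
      (if (a : ℤ) + a' + z = c₁ + c₁' ∧ ¬ Normal b l K ε' ((a : ℤ) - c₁) then (1 : ℝ) else 0) := by
    intro z
    unfold bad
    rw [card_filter]
    push_cast
    rw [sum_product, sum_product]
    refine sum_congr rfl fun a _ => sum_congr rfl fun a' _ => ?_
    rw [sum_product]
  -- a uniform way to use the bound
  have key : ∀ (r m u : ℕ), r + m * q ≤ K →
      ∑ ξ ∈ states K, prob s ξ * ∑ a ∈ S, ∑ a' ∈ S, ∑ c₁ ∈ S, ∑ c₁' ∈ S,
      (if (((a : ℤ) + a' + zz b ξ : ℤ) : ZMod (b ^ K)) = (((c₁ : ℤ) + c₁' : ℤ) : ZMod (b ^ K)) ∧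
        (1 + ε / 2) / (b : ℝ) ^ l * m ≤ ∑ B : Fin m, (if Nat.floor (((b ^ l : ℕ) : ℝ) *
          Int.fract (((a : ℝ) - c₁) / (b : ℝ) ^ (r + (B + 1) * q))) = u then (1 : ℝ) else 0)
        then (1 : ℝ) else 0) ≤ Real.exp (-(c₀ * s * m)) * (2 * E) := by
    intro r m u hrm
    exact (hcore K r m u hrm s hs hs1 S).trans
      (mul_le_mul_of_nonneg_left hEn (Real.exp_pos _).le)
  have hE0 : 0 ≤ E := by linarith
  rcases lt_or_ge (K : ℝ) K₀ with hlt | hge
  · -- small K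
    have h1 := key 0 0 0 (by omega)
    have h2 : ∑ ξ ∈ states K, prob s ξ * (bad b l K ε' S (zz b ξ) : ℝ) ≤ 2 * E := by
      refine le_trans (sum_le_sum fun ξ _ => mul_le_mul_of_nonneg_left ?_ (hpr ξ)) (h1.trans ?_)
      · rw [hbad]
        refine sum_le_sum fun a _ => sum_le_sum fun a' _ => sum_le_sum fun c₁ _ =>
          sum_le_sum fun c₁' _ => ?_
        by_cases h3 : (a : ℤ) + a' + zz b ξ = c₁ + c₁' ∧ ¬ Normal b l K ε' ((a : ℤ) - c₁)
        · rw [if_pos h3, if_pos]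
          refine ⟨by rw [h3.1], ?_⟩
          simp
        · rw [if_neg h3]
          split_ifs <;> norm_num
      · simp
    refine h2.trans ?_
    have h4 : 1 ≤ Real.exp (c * K₀) * Real.exp (-(c * s * K)) := by
      rw [← Real.exp_add]
      refine Real.one_le_exp ?_
      have h5 : c * s * K ≤ c * K₀ := by
        have h6 : s * K ≤ K₀ := by
          have h7 : (0 : ℝ) ≤ K := Nat.cast_nonneg K
          nlinarith
        rw [mul_assoc]
        exact mul_le_mul_of_nonneg_left h6 hc0.le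
      linarith
    have h8 : 2 * Real.exp (c * K₀) ≤ C := by
      rw [hC]
      have : 0 ≤ (b : ℝ) ^ l * q * Real.exp 2 := by positivity
      linarith
    calc 2 * E ≤ 2 * (Real.exp (c * K₀) * Real.exp (-(c * s * K))) * E := by
          refine mul_le_mul_of_nonneg_right ?_ hE0
          linarith
      _ = 2 * Real.exp (c * K₀) * Real.exp (-(c * s * K)) * E := by ring
      _ ≤ C * Real.exp (-(c * s * K)) * E :=
          mul_le_mul_of_nonneg_right (mul_le_mul_of_nonneg_right h8 (Real.exp_pos _).le) hE0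
  · have hKq : 4 * (b : ℝ) ^ l * q ≤ ε * K := by
      rw [hK₀, div_le_iff₀ hε] at hge
      linarith
    have hterm : ∀ u r : ℕ, r < q → r + ((K - r) / q) * q ≤ K := by
      intro u r hr
      have h1 : (K - r) / q * q ≤ K - r := Nat.div_mul_le_self _ _
      have h2 : q ≤ K := by
        have h3 : (q : ℝ) ≤ K := by nlinarith
        exact_mod_cast h3
      omega
    have hstep : ∀ ξ : Fin K → ℤ, (bad b l K ε' S (zz b ξ) : ℝ) ≤
        ∑ u ∈ range (b ^ l), ∑ r ∈ range q, ∑ a ∈ S, ∑ a' ∈ S, ∑ c₁ ∈ S, ∑ c₁' ∈ S,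
      (if (((a : ℤ) + a' + zz b ξ : ℤ) : ZMod (b ^ K)) = (((c₁ : ℤ) + c₁' : ℤ) : ZMod (b ^ K)) ∧
        (1 + ε / 2) / (b : ℝ) ^ l * ((K - r) / q : ℕ) ≤ ∑ B : Fin ((K - r) / q),
          (if Nat.floor (((b ^ l : ℕ) : ℝ) *
          Int.fract (((a : ℝ) - c₁) / (b : ℝ) ^ (r + (B + 1) * q))) = u then (1 : ℝ) else 0)
        then (1 : ℝ) else 0) := by
      intro ξ
      rw [hbad]
      have hsw : ∀ G : ℕ → ℕ → ℕ → ℕ → ℕ → ℕ → ℝ,
          ∑ u ∈ range (b ^ l), ∑ r ∈ range q, ∑ a ∈ S, ∑ a' ∈ S, ∑ c₁ ∈ S, ∑ c₁' ∈ S,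
            G u r a a' c₁ c₁' = ∑ a ∈ S, ∑ a' ∈ S, ∑ c₁ ∈ S, ∑ c₁' ∈ S,
            ∑ u ∈ range (b ^ l), ∑ r ∈ range q, G u r a a' c₁ c₁' := by
        intro G
        rw [sum_congr rfl fun u _ => sum_comm]
        rw [sum_comm]
        refine sum_congr rfl fun a _ => ?_
        rw [sum_congr rfl fun u _ => sum_comm]
        rw [sum_comm]
        refine sum_congr rfl fun a' _ => ?_
        rw [sum_congr rfl fun u _ => sum_comm]
        rw [sum_comm]
        refine sum_congr rfl fun c₁ _ => ?_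
        rw [sum_congr rfl fun u _ => sum_comm]
        rw [sum_comm]
      rw [hsw]
      refine sum_le_sum fun a _ => sum_le_sum fun a' _ => sum_le_sum fun c₁ _ =>
          sum_le_sum fun c₁' _ => ?_
      have hnn : ∀ u ∈ range (b ^ l), ∀ r ∈ range q, (0 : ℝ) ≤
          (if (((a : ℤ) + a' + zz b ξ : ℤ) : ZMod (b ^ K)) =
            (((c₁ : ℤ) + c₁' : ℤ) : ZMod (b ^ K)) ∧
        (1 + ε / 2) / (b : ℝ) ^ l * ((K - r) / q : ℕ) ≤ ∑ B : Fin ((K - r) / q),
          (if Nat.floor (((b ^ l : ℕ) : ℝ) *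
          Int.fract (((a : ℝ) - c₁) / (b : ℝ) ^ (r + (B + 1) * q))) = u then (1 : ℝ) else 0)
        then (1 : ℝ) else 0) := by
        intro u _ r _
        split_ifs <;> norm_num
      by_cases h3 : (a : ℤ) + a' + zz b ξ = c₁ + c₁' ∧ ¬ Normal b l K ε' ((a : ℤ) - c₁)
      · rw [if_pos h3]
        have h4 : ¬ Normal b l K ε ((a : ℤ) - c₁) := fun h => h3.2 (normal_mono hεε' h)
        obtain ⟨u, hu, r, hr, h5⟩ := hDg b l q K ε hb hl hql hε hKq _ h4
        have h6 : (((a : ℤ) - c₁ : ℤ) : ℝ) = (a : ℝ) - c₁ := by push_cast; rfl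
        rw [h6] at h5
        refine le_trans ?_ (single_le_sum (f := fun u => ∑ r ∈ range q,
          (if (((a : ℤ) + a' + zz b ξ : ℤ) : ZMod (b ^ K)) =
            (((c₁ : ℤ) + c₁' : ℤ) : ZMod (b ^ K)) ∧
        (1 + ε / 2) / (b : ℝ) ^ l * ((K - r) / q : ℕ) ≤ ∑ B : Fin ((K - r) / q),
          (if Nat.floor (((b ^ l : ℕ) : ℝ) *
          Int.fract (((a : ℝ) - c₁) / (b : ℝ) ^ (r + (B + 1) * q))) = u then (1 : ℝ) else 0)
        then (1 : ℝ) else 0)) (fun u hu => sum_nonneg (hnn u hu)) (mem_range.2 hu))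
        refine le_trans ?_ (single_le_sum (f := fun r =>
          (if (((a : ℤ) + a' + zz b ξ : ℤ) : ZMod (b ^ K)) =
            (((c₁ : ℤ) + c₁' : ℤ) : ZMod (b ^ K)) ∧
        (1 + ε / 2) / (b : ℝ) ^ l * ((K - r) / q : ℕ) ≤ ∑ B : Fin ((K - r) / q),
          (if Nat.floor (((b ^ l : ℕ) : ℝ) *
          Int.fract (((a : ℝ) - c₁) / (b : ℝ) ^ (r + (B + 1) * q))) = u then (1 : ℝ) else 0)
        then (1 : ℝ) else 0)) (hnn u (mem_range.2 hu)) (mem_range.2 hr))
        show (1 : ℝ) ≤ if _ then (1 : ℝ) else 0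
        rw [if_pos]
        exact ⟨by rw [h3.1], h5⟩
      · rw [if_neg h3]
        exact sum_nonneg fun u hu => sum_nonneg (hnn u hu)
    have hsum : ∑ ξ ∈ states K, prob s ξ * (bad b l K ε' S (zz b ξ) : ℝ) ≤
        ∑ u ∈ range (b ^ l), ∑ r ∈ range q, Real.exp 2 * Real.exp (-(c * s * K)) * (2 * E) := by
      refine (sum_le_sum fun ξ _ => mul_le_mul_of_nonneg_left (hstep ξ) (hpr ξ)).trans ?_
      simp only [mul_sum]
      rw [sum_comm]
      refine sum_le_sum fun u _ => ?_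
      rw [sum_comm]
      refine sum_le_sum fun r hr => ?_
      have hr' : r < q := mem_range.1 hr
      have h1 := key r ((K - r) / q) u (hterm u r hr')
      simp only [mul_sum] at h1
      refine h1.trans (mul_le_mul_of_nonneg_right ?_ (by linarith))
      rw [← Real.exp_add]
      refine Real.exp_le_exp.2 ?_
      have h2 : (K : ℝ) ≤ q * ((K - r) / q : ℕ) + 2 * q := by
        have h3 : K - r < q * ((K - r) / q + 1) := Nat.lt_mul_div_succ (K - r) (by omega)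
        have h4 : K ≤ q * ((K - r) / q) + 2 * q := by
          have h5 : q * ((K - r) / q + 1) = q * ((K - r) / q) + q := by ring
          omega
        exact_mod_cast h4
      have h3 : c * s * K ≤ c₀ * s * ((K - r) / q : ℕ) + 2 * (c₀ * s) := by
        have h4 : c * s * K ≤ c * s * (q * ((K - r) / q : ℕ) + 2 * q) :=
          mul_le_mul_of_nonneg_left h2 (by positivity)
        refine h4.trans (le_of_eq ?_)
        rw [hc]
        field_simp
      have h4 : c₀ * s ≤ 1 := by nlinarith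
      linarith
    refine hsum.trans ?_
    rw [sum_const, sum_const, card_range, card_range, nsmul_eq_mul, nsmul_eq_mul]
    push_cast
    calc (b : ℝ) ^ l * (q * (Real.exp 2 * Real.exp (-(c * s * K)) * (2 * E))) =
        2 * ((b : ℝ) ^ l * q * Real.exp 2) * Real.exp (-(c * s * K)) * E := by ring
      _ ≤ C * Real.exp (-(c * s * K)) * E := by
          refine mul_le_mul_of_nonneg_right (mul_le_mul_of_nonneg_right ?_ (Real.exp_pos _).le) hE0
          rw [hC]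
          have : 0 < Real.exp (c * K₀) := Real.exp_pos _
          linarith

end Pool.Agent.Helper57.CH
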