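import Pool.Agent.Helper57.CH.Push

set_option autoImplicit false

/-! The two parts with common constants. -/

namespace Pool.Agent.Helper57.CH

open Finset
open Pool.Agent.Helper57.U2 (rep upTo)

/-- both parts, common constants -/
def StBoth : Prop := ∀ (b l : ℕ) (ε : ℝ), 2 ≤ b → 1 ≤ l → 0 < ε → ∃ c C : ℝ, 0 < c ∧ 0 < C ∧
  ∀ (A : Set ℕ) (K : ℕ) (s : ℝ), 0 < s → s ≤ 1 / 2 →
    ∑ ξ ∈ states K, prob s ξ * bad3 b l K ε (upTo A (b ^ K)) (zz b ξ) ≤
      C * Real.exp (-(c * s * K)) * ∑ n ∈ range (2 * b ^ K), (rep A n : ℝ) ^ 2 ∧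
    ∀ J : ℤ → ℕ → ℕ, ∑ ξ ∈ states K, prob s ξ * #(read2 b K ε A J (zz b ξ)) ≤
      C * (b : ℝ) ^ K * (Real.exp (-(c * s * K)) *
        (∑ n ∈ range (2 * b ^ K), (rep A n : ℝ) ^ 2) / (b : ℝ) ^ K) ^ c

lemma sum_prob (K : ℕ) (s : ℝ) : ∑ ξ ∈ states K, prob s ξ = 1 := by
  unfold states prob
  rw [← prod_univ_sum (fun _ : Fin K => ({-1, 0, 1} : Finset ℤ))
    (fun _ x => if x = 0 then 1 - s else s / 2)]
  refine prod_eq_one fun i _ => ?_
  rw [sum_insert (by decide), sum_insert (by decide), sum_singleton]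
  norm_num
  ring

theorem both (hCH : StCH3) (hNr : StNr2) : StBoth := by
  classical
  intro b l ε hb hl hε
  obtain ⟨c₁, C₁, hc₁, hC₁, h₁⟩ := hCH b l hb hl ε hε
  obtain ⟨c₂, C₂, hc₂, hC₂, h₂⟩ := hNr b ε hb hε
  obtain ⟨c, hc⟩ : ∃ c, c = min c₁ c₂ := ⟨_, rfl⟩
  obtain ⟨C, hC⟩ : ∃ C, C = max (max C₁ C₂) 1 := ⟨_, rfl⟩
  have hc0 : 0 < c := by rw [hc]; exact lt_min hc₁ hc₂
  have hC0 : 1 ≤ C := by rw [hC]; exact le_max_right _ _
  have hcc₁ : c ≤ c₁ := by rw [hc]; exact min_le_left _ _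
  have hcc₂ : c ≤ c₂ := by rw [hc]; exact min_le_right _ _
  have hCC₁ : C₁ ≤ C := by rw [hC]; exact (le_max_left _ _).trans (le_max_left _ _)
  have hCC₂ : C₂ ≤ C := by rw [hC]; exact (le_max_right _ _).trans (le_max_left _ _)
  refine ⟨c, C, hc0, by linarith, fun A K s hs hs2 => ?_⟩
  obtain ⟨E, hE⟩ : ∃ E : ℝ, E = ∑ n ∈ range (2 * b ^ K), (rep A n : ℝ) ^ 2 := ⟨_, rfl⟩
  have hE0 : 0 ≤ E := by rw [hE]; exact sum_nonneg fun _ _ => by positivity
  have hx : (0 : ℝ) < (b : ℝ) ^ K := by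
    have : 0 < b := by omega
    positivity
  have hexp : ∀ c' : ℝ, c ≤ c' → Real.exp (-(c' * s * K)) ≤ Real.exp (-(c * s * K)) := by
    intro c' hcc'
    refine Real.exp_le_exp.2 ?_
    have h5 : c * s * K ≤ c' * s * K := by
      have h6 : c * s ≤ c' * s := mul_le_mul_of_nonneg_right hcc' hs.le
      exact mul_le_mul_of_nonneg_right h6 (Nat.cast_nonneg _)
    linarith
  refine ⟨?_, fun J => ?_⟩
  · refine (h₁ A K s hs hs2).trans ?_
    rw [← hE]
    refine mul_le_mul_of_nonneg_right ?_ hE0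
    exact mul_le_mul hCC₁ (hexp c₁ hcc₁) (Real.exp_pos _).le (by linarith)
  · rw [← hE]
    have hR : 0 ≤ Real.exp (-(c * s * K)) * E / (b : ℝ) ^ K := by positivity
    rcases le_total (Real.exp (-(c * s * K)) * E / (b : ℝ) ^ K) 1 with h1' | h1'
    · refine (h₂ A K s hs hs2 J).trans ?_
      rw [← hE]
      have h3 : Real.exp (-(c₂ * s * K)) * E / (b : ℝ) ^ K ≤
          Real.exp (-(c * s * K)) * E / (b : ℝ) ^ K := by
        have h4 := hexp c₂ hcc₂
        gcongr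
      have h4 : (Real.exp (-(c₂ * s * K)) * E / (b : ℝ) ^ K) ^ c₂ ≤
          (Real.exp (-(c * s * K)) * E / (b : ℝ) ^ K) ^ c₂ :=
        Real.rpow_le_rpow (by positivity) h3 hc₂.le
      have h5 : (Real.exp (-(c * s * K)) * E / (b : ℝ) ^ K) ^ c₂ ≤
          (Real.exp (-(c * s * K)) * E / (b : ℝ) ^ K) ^ c := by
        rcases hR.eq_or_lt with h0 | h0
        · rw [← h0, Real.zero_rpow hc₂.ne', Real.zero_rpow hc0.ne']
        · exact Real.rpow_le_rpow_of_exponent_ge h0 h1' hcc₂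
      have h6 : C₂ * (b : ℝ) ^ K ≤ C * (b : ℝ) ^ K := mul_le_mul_of_nonneg_right hCC₂ hx.le
      exact mul_le_mul h6 (h4.trans h5) (by positivity) (by positivity)
    · have hp0 : ∀ ξ ∈ states K, 0 ≤ prob s ξ := fun ξ _ => by
        unfold prob
        refine prod_nonneg fun i _ => ?_
        split_ifs
        · linarith
        · linarith
      have h2 : ∑ ξ ∈ states K, prob s ξ * #(read2 b K ε A J (zz b ξ)) ≤ (b : ℝ) ^ K := by
        have h3 : ∀ ξ ∈ states K, prob s ξ * #(read2 b K ε A J (zz b ξ)) ≤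
            prob s ξ * (b : ℝ) ^ K := by
          intro ξ hξ
          refine mul_le_mul_of_nonneg_left ?_ (hp0 ξ hξ)
          have h5 : #(read2 b K ε A J (zz b ξ)) ≤ b ^ K := by
            unfold read2
            exact (card_le_card (filter_subset _ _)).trans (by rw [card_range])
          exact_mod_cast h5
        refine (sum_le_sum h3).trans (le_of_eq ?_)
        rw [← sum_mul, sum_prob, one_mul]
      refine h2.trans ?_
      have h3 : (1 : ℝ) ≤ (Real.exp (-(c * s * K)) * E / (b : ℝ) ^ K) ^ c :=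
        Real.one_le_rpow h1' hc0.le
      have h4 : (b : ℝ) ^ K ≤ C * (b : ℝ) ^ K := by
        have := mul_le_mul_of_nonneg_right hC0 hx.le
        linarith
      have h5 : 0 ≤ C * (b : ℝ) ^ K := by positivity
      nlinarith

end Pool.Agent.Helper57.CH
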