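import Pool.Agent.Helper57.CH.Frames
import Pool.Agent.Helper57.SC.Main
import Pool.Agent.Helper57.U2.Clauses
import Pool.Agent.Helper43.SC.Br1
import Pool.Agent.Helper7.SC.A4

set_option autoImplicit false

/-! Exponential bound for the quadruples with a block of `a - c` too frequent along a progression. -/

namespace Pool.Agent.Helper57.CH

open Finset
open Pool.Agent.Helper7.SC (e nuhat Ecyc)
open Pool.Agent.Helper57.SC (exists_q exp_sub_sq_le)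
open Pool.Agent.Helper43.SC (maj_bdd)

lemma exists_q' (b : ℕ) (hb : 2 ≤ b) (H l : ℕ) (η : ℝ) (hη : 0 < η) : ∃ q : ℕ, 1 ≤ q ∧ l ≤ q ∧
    2 * H < b ^ q ∧ Real.exp (8 * Real.pi * H / ((b : ℝ) ^ q * η)) ≤ 2 := by
  obtain ⟨q, h1, h2, h3⟩ := exists_q b hb H η hη
  have hb1 : (1 : ℝ) ≤ b := by
    have : 1 ≤ b := by omega
    exact_mod_cast this
  refine ⟨max l q, h1.trans (le_max_right _ _), le_max_left _ _, ?_, ?_⟩
  · exact h2.trans_le (Nat.pow_le_pow_right (by omega) (le_max_right _ _))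
  · refine le_trans (Real.exp_le_exp.2 ?_) h3
    have h4 : (b : ℝ) ^ q ≤ (b : ℝ) ^ (max l q) := pow_le_pow_right₀ hb1 (le_max_right _ _)
    have h5 : (0 : ℝ) < (b : ℝ) ^ q := by positivity
    exact div_le_div_of_nonneg_left (by positivity) (by positivity)
      (mul_le_mul_of_nonneg_right h4 hη.le)

/-- the kernel -/
noncomputable def ker (t : ℝ) (c : ℤ → ℂ) (h : ℤ) : ℂ := if h = 0 then 1 else (t : ℂ) * c h

lemma ker_sum (H : ℕ) (t : ℝ) (c : ℤ → ℂ) (y : ℝ) :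
    (∑ h ∈ Icc (-(H : ℤ)) H, ker t c h * e (h * y)).re =
      1 + t * ((∑ h ∈ Icc (-(H : ℤ)) H, c h * e (h * y)).re - (c 0).re) := by
  have h0 : (0 : ℤ) ∈ Icc (-(H : ℤ)) H := by simp
  have he : e ((0 : ℤ) * y) = 1 := by simp [e]
  rw [← add_sum_erase _ _ h0, ← add_sum_erase _ (fun h : ℤ => c h * e (h * y)) h0]
  have h1 : ∑ h ∈ (Icc (-(H : ℤ)) H).erase 0, ker t c h * e (h * y) =
      (t : ℂ) * ∑ h ∈ (Icc (-(H : ℤ)) H).erase 0, c h * e (h * y) := by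
    rw [mul_sum]
    refine sum_congr rfl fun h hh => ?_
    unfold ker
    rw [if_neg (ne_of_mem_erase hh)]
    ring
  rw [h1]
  simp only [he, ker, if_true, mul_one, Complex.add_re, Complex.one_re, Complex.re_ofReal_mul]
  ring

lemma ker_small (H : ℕ) (t M : ℝ) (ht : 0 ≤ t) (c : ℤ → ℂ) (hc : ∀ h, ‖c h‖ ≤ M) (y : ℝ) :
    |t * ((∑ h ∈ Icc (-(H : ℤ)) H, c h * e (h * y)).re - (c 0).re)| ≤ t * (2 * H * M) := by
  have h0 : (0 : ℤ) ∈ Icc (-(H : ℤ)) H := by simp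
  have he : e ((0 : ℤ) * y) = 1 := by simp [e]
  rw [← add_sum_erase _ (fun h : ℤ => c h * e (h * y)) h0]
  simp only [he, mul_one, Complex.add_re, add_sub_cancel_left]
  rw [abs_mul, abs_of_nonneg ht]
  refine mul_le_mul_of_nonneg_left ?_ ht
  refine (Complex.abs_re_le_norm _).trans ((norm_sum_le _ _).trans ?_)
  have h1 : ∀ h ∈ (Icc (-(H : ℤ)) H).erase 0, ‖c h * e (h * y)‖ ≤ M := by
    intro h _
    rw [norm_mul]
    have h2 : ‖e (h * y)‖ = 1 := by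
      unfold e
      have h3 : (2 * (Real.pi : ℂ) * ((h * y : ℝ) : ℂ) * Complex.I) =
          ((2 * Real.pi * (h * y) : ℝ) : ℂ) * Complex.I := by
        push_cast
        ring
      rw [h3, Complex.norm_exp_ofReal_mul_I]
    rw [h2, mul_one]
    exact hc h
  refine (sum_le_sum h1).trans (le_of_eq ?_)
  rw [sum_const, card_erase_of_mem h0, Int.card_Icc, nsmul_eq_mul]
  congr 1
  have : (H + 1 - -(H : ℤ)).toNat - 1 = 2 * H := by omega
  rw [this]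
  push_cast
  ring

theorem core (hMu : StMu) (hG : StG) (b l : ℕ) (hb : 2 ≤ b) (hl : 1 ≤ l) (ε : ℝ) (hε : 0 < ε)
    (hε1 : ε ≤ 1) :
    ∃ (q : ℕ) (c₀ : ℝ), 1 ≤ q ∧ l ≤ q ∧ 0 < c₀ ∧ c₀ ≤ 1 ∧ ∀ (K r m u : ℕ), r + m * q ≤ K →
    ∀ s : ℝ, 0 < s → s ≤ 1 / 2 → ∀ S : Finset ℕ,
    ∑ ξ ∈ states K, prob s ξ * ∑ a ∈ S, ∑ a' ∈ S, ∑ c₁ ∈ S, ∑ c₁' ∈ S,
      (if (((a : ℤ) + a' + zz b ξ : ℤ) : ZMod (b ^ K)) = (((c₁ : ℤ) + c₁' : ℤ) : ZMod (b ^ K)) ∧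
        (1 + ε / 2) / (b : ℝ) ^ l * m ≤ ∑ B : Fin m, (if Nat.floor (((b ^ l : ℕ) : ℝ) *
          Int.fract (((a : ℝ) - c₁) / (b : ℝ) ^ (r + (B + 1) * q))) = u then (1 : ℝ) else 0)
        then (1 : ℝ) else 0) ≤ Real.exp (-(c₀ * s * m)) * Ecyc (b ^ K) S := by
  classical
  have hb0 : (0 : ℝ) < b := by
    have : 0 < b := by omega
    exact_mod_cast this
  have hb2 : (2 : ℝ) ≤ b := by exact_mod_cast hb
  have hbl : (0 : ℝ) < (b : ℝ) ^ l := by positivity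
  have hbl1 : (1 : ℝ) ≤ (b : ℝ) ^ l := one_le_pow₀ (by linarith)
  have hbl2 : 2 ≤ b ^ l := by
    calc 2 ≤ b := hb
      _ = b ^ 1 := (pow_one b).symm
      _ ≤ b ^ l := Nat.pow_le_pow_right (by omega) hl
  obtain ⟨κ, hκ⟩ : ∃ κ : ℝ, κ = ε / (4 * (b : ℝ) ^ l) := ⟨_, rfl⟩
  have hκ0 : 0 < κ := by rw [hκ]; positivity
  have hκ1 : κ ≤ 1 / 4 := by
    rw [hκ, div_le_iff₀ (by positivity)]
    nlinarith
  obtain ⟨H, M, c, hH, hM, hc, hc0, hmaj⟩ := maj_bdd (b ^ l) hbl2 κ hκ0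
  have hHr : (1 : ℝ) ≤ H := by exact_mod_cast hH
  have hHM : (1 : ℝ) ≤ H * M := by nlinarith
  obtain ⟨κ₁, hκ₁⟩ : ∃ κ₁ : ℝ, κ₁ = κ / (2 * H * M) := ⟨_, rfl⟩
  have hκ₁0 : 0 < κ₁ := by rw [hκ₁]; positivity
  have hκ₁1 : κ₁ ≤ 1 / 8 := by
    rw [hκ₁, div_le_iff₀ (by positivity)]
    nlinarith
  obtain ⟨η, hη⟩ : ∃ η : ℝ, η = κ₁ / 8 := ⟨_, rfl⟩
  have hη0 : 0 < η := by rw [hη]; positivity
  obtain ⟨q, hq1, hql, hq2, hq3⟩ := exists_q' b hb H l η hη0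
  have hqr : (1 : ℝ) ≤ q := by exact_mod_cast hq1
  obtain ⟨c₀, hc₀⟩ : ∃ c₀ : ℝ, c₀ = κ₁ ^ 2 / (512 * (b : ℝ) ^ 2 * q) := ⟨_, rfl⟩
  have hbq : (1 : ℝ) ≤ (b : ℝ) ^ 2 * q := by nlinarith
  refine ⟨q, c₀, hq1, hql, by rw [hc₀]; positivity, ?_, ?_⟩
  · rw [hc₀, div_le_one (by positivity)]
    nlinarith
  intro K r m u hrm s hs hs1 S
  obtain ⟨p, hp⟩ : ∃ p : ℝ, p = s / (2 * (b : ℝ) ^ 2 * q) := ⟨_, rfl⟩
  have hp0 : 0 < p := by rw [hp]; positivity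
  have hp1 : p ≤ 1 / 2 := by
    rw [hp, div_le_iff₀ (by positivity)]
    nlinarith
  obtain ⟨Δ, hΔ⟩ : ∃ Δ : ℝ, Δ = κ₁ * p / 64 := ⟨_, rfl⟩
  have hΔ0 : 0 < Δ := by rw [hΔ]; positivity
  have hΔ1 : Δ ≤ 1 / 2 := by rw [hΔ]; nlinarith
  have hηe : η = 8 * Δ / p := by
    rw [hΔ, hη]
    field_simp
    ring
  have hη1 : η ≤ 1 := by rw [hη]; linarith
  obtain ⟨t, ht⟩ : ∃ t : ℝ, t = Δ / (2 * H * M) := ⟨_, rfl⟩
  have ht0 : 0 ≤ t := by rw [ht]; positivity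
  have htM : t * (2 * H * M) = Δ := by
    rw [ht]
    field_simp
  have hcoef : ∀ h : ℤ, h ≠ 0 → ‖ker t (c u) h‖ ≤ Δ / (2 * H) := by
    intro h hh
    unfold ker
    rw [if_neg hh, norm_mul, Complex.norm_real, Real.norm_eq_abs, abs_of_nonneg ht0]
    refine (mul_le_mul_of_nonneg_left (hc u h) ht0).trans (le_of_eq ?_)
    rw [ht]
    field_simp
  have hmain := hG b q r m K H p Δ η hb hrm hH hq2 hΔ0 hp0 hp1 hηe hη1 hq3 (ker t (c u))
    (by simp [ker]) hcoef s (fun j => by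
      obtain ⟨t', h1, h2, h3⟩ := hMu b q r m K s hb hq1 hrm hs.le hs1 j
      exact ⟨t', h1, by rw [hp]; exact h2, h3⟩) S
  simp only [ker_sum] at hmain
  -- the exponent
  obtain ⟨L, hL⟩ : ∃ L : ℝ, L = (t * κ - Δ ^ 2) * m := ⟨_, rfl⟩
  have hprod : ∀ a c₁ : ℕ, (0 : ℝ) ≤ ∏ B : Fin m, (1 + t *
      ((∑ h ∈ Icc (-(H : ℤ)) H, c u h * e (h * (((a : ℝ) - c₁) / (b : ℝ) ^ (r + (B + 1) * q)))).re -
        (c u 0).re)) ∧
      ((1 + ε / 2) / (b : ℝ) ^ l * m ≤ ∑ B : Fin m, (if Nat.floor (((b ^ l : ℕ) : ℝ) *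
          Int.fract (((a : ℝ) - c₁) / (b : ℝ) ^ (r + (B + 1) * q))) = u then (1 : ℝ) else 0) →
        Real.exp L ≤ ∏ B : Fin m, (1 + t *
      ((∑ h ∈ Icc (-(H : ℤ)) H, c u h * e (h * (((a : ℝ) - c₁) / (b : ℝ) ^ (r + (B + 1) * q)))).re -
        (c u 0).re))) := by
    intro a c₁
    set x : Fin m → ℝ := fun B => t *
      ((∑ h ∈ Icc (-(H : ℤ)) H, c u h * e (h * (((a : ℝ) - c₁) / (b : ℝ) ^ (r + (B + 1) * q)))).re -
        (c u 0).re) with hx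
    have hxb : ∀ B, |x B| ≤ Δ := fun B => by
      refine (ker_small H t M ht0 (c u) (hc u) _).trans (le_of_eq ?_)
      exact htM
    have hx1 : ∀ B, Real.exp (x B - x B ^ 2) ≤ 1 + x B := fun B =>
      exp_sub_sq_le ((hxb B).trans hΔ1)
    have hprodge : Real.exp (∑ B, (x B - x B ^ 2)) ≤ ∏ B, (1 + x B) := by
      rw [Real.exp_sum]
      exact prod_le_prod (fun B _ => (Real.exp_pos _).le) fun B _ => hx1 B
    refine ⟨(Real.exp_pos _).le.trans hprodge, fun hT => le_trans (Real.exp_le_exp.2 ?_) hprodge⟩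
    have h1 : ∀ B : Fin m, t * ((if Nat.floor (((b ^ l : ℕ) : ℝ) *
          Int.fract (((a : ℝ) - c₁) / (b : ℝ) ^ (r + (B + 1) * q))) = u then (1 : ℝ) else 0) -
          (1 / (b : ℝ) ^ l + κ)) - Δ ^ 2 ≤ x B - x B ^ 2 := by
      intro B
      have h2 : x B ^ 2 ≤ Δ ^ 2 := by
        rw [← sq_abs]
        exact pow_le_pow_left₀ (abs_nonneg _) (hxb B) 2
      have h3 := hmaj u (((a : ℝ) - c₁) / (b : ℝ) ^ (r + (B + 1) * q))
      have h4 := hc0 u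
      have h5 : (1 : ℝ) / ((b ^ l : ℕ) : ℝ) = 1 / (b : ℝ) ^ l := by push_cast; rfl
      rw [h5] at h4
      have h6 : t * ((if Nat.floor (((b ^ l : ℕ) : ℝ) *
          Int.fract (((a : ℝ) - c₁) / (b : ℝ) ^ (r + (B + 1) * q))) = u then (1 : ℝ) else 0) -
          (1 / (b : ℝ) ^ l + κ)) ≤ x B := by
        simp only [hx]
        exact mul_le_mul_of_nonneg_left (by linarith) ht0
      linarith
    refine le_trans ?_ (sum_le_sum fun B _ => h1 B)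
    rw [sum_sub_distrib, ← mul_sum, sum_sub_distrib, sum_const, sum_const, card_univ,
      Fintype.card_fin, nsmul_eq_mul, nsmul_eq_mul, hL]
    have h7 : (1 + ε / 2) / (b : ℝ) ^ l * m - m * (1 / (b : ℝ) ^ l + κ) = κ * m := by
      rw [hκ]
      field_simp
      ring
    have h8 : t * (κ * m) ≤ t * (∑ B : Fin m, (if Nat.floor (((b ^ l : ℕ) : ℝ) *
          Int.fract (((a : ℝ) - c₁) / (b : ℝ) ^ (r + (B + 1) * q))) = u then (1 : ℝ) else 0) -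
          m * (1 / (b : ℝ) ^ l + κ)) := by
      refine mul_le_mul_of_nonneg_left ?_ ht0
      linarith
    linarith
  -- compare
  have hcomp : Real.exp L * ∑ ξ ∈ states K, prob s ξ * ∑ a ∈ S, ∑ a' ∈ S, ∑ c₁ ∈ S, ∑ c₁' ∈ S,
      (if (((a : ℤ) + a' + zz b ξ : ℤ) : ZMod (b ^ K)) = (((c₁ : ℤ) + c₁' : ℤ) : ZMod (b ^ K)) ∧
        (1 + ε / 2) / (b : ℝ) ^ l * m ≤ ∑ B : Fin m, (if Nat.floor (((b ^ l : ℕ) : ℝ) *
          Int.fract (((a : ℝ) - c₁) / (b : ℝ) ^ (r + (B + 1) * q))) = u then (1 : ℝ) else 0)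
        then (1 : ℝ) else 0) ≤ (1 + 4 * Δ * η) ^ m * Ecyc (b ^ K) S := by
    refine le_trans ?_ hmain
    rw [mul_sum]
    refine sum_le_sum fun ξ _ => ?_
    have hpr : 0 ≤ prob s ξ := by
      unfold prob
      refine prod_nonneg fun i _ => ?_
      split_ifs <;> linarith
    rw [mul_left_comm]
    refine mul_le_mul_of_nonneg_left ?_ hpr
    simp only [mul_sum]
    refine sum_le_sum fun a _ => sum_le_sum fun a' _ => sum_le_sum fun c₁ _ =>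
      sum_le_sum fun c₁' _ => ?_
    by_cases h1 : (((a : ℤ) + a' + zz b ξ : ℤ) : ZMod (b ^ K)) =
      (((c₁ : ℤ) + c₁' : ℤ) : ZMod (b ^ K))
    · by_cases h2 : (1 + ε / 2) / (b : ℝ) ^ l * m ≤ ∑ B : Fin m, (if Nat.floor (((b ^ l : ℕ) : ℝ) *
          Int.fract (((a : ℝ) - c₁) / (b : ℝ) ^ (r + (B + 1) * q))) = u then (1 : ℝ) else 0)
      · rw [if_pos ⟨h1, h2⟩, if_pos h1, mul_one]
        exact (hprod a c₁).2 h2
      · rw [if_neg (fun h => h2 h.2), if_pos h1, mul_zero]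
        exact (hprod a c₁).1
    · rw [if_neg (fun h => h1 h.1), if_neg h1, mul_zero]
  have hE0 : 0 ≤ Ecyc (b ^ K) S := by
    unfold Ecyc
    refine sum_nonneg fun _ _ => sum_nonneg fun _ _ => sum_nonneg fun _ _ => sum_nonneg fun _ _ => ?_
    split_ifs <;> norm_num
  have h8 : (1 + 4 * Δ * η) ^ m ≤ Real.exp (4 * Δ * η * m) := by
    have h9 : 1 + 4 * Δ * η ≤ Real.exp (4 * Δ * η) := by
      have := Real.add_one_le_exp (4 * Δ * η)
      linarith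
    refine (pow_le_pow_left₀ (by positivity) h9 m).trans (le_of_eq ?_)
    rw [← Real.exp_nat_mul]
    congr 1
    ring
  have h9 := hcomp.trans (mul_le_mul_of_nonneg_right h8 hE0)
  have h10 : 4 * Δ * η * m ≤ L - c₀ * s * m := by
    have hm0 : (0 : ℝ) ≤ m := Nat.cast_nonneg m
    have h11 : 4 * Δ * η ≤ t * κ - Δ ^ 2 - c₀ * s := by
      have h12 : t * κ = Δ * κ₁ := by rw [ht, hκ₁]; ring
      have h13 : c₀ * s = κ₁ ^ 2 * p / 256 := by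
        rw [hc₀, hp]
        field_simp
        ring
      rw [h12, h13, hη, hΔ]
      have h14 : 0 ≤ κ₁ ^ 2 * p * (1 / 2 - p) := mul_nonneg (by positivity) (by linarith)
      nlinarith
    rw [hL]
    nlinarith
  refine le_of_mul_le_mul_left (le_trans h9 ?_) (Real.exp_pos L)
  rw [← mul_assoc, ← Real.exp_add]
  exact mul_le_mul_of_nonneg_right (Real.exp_le_exp.2 (by linarith)) hE0

end Pool.Agent.Helper57.CH
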