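import Pool.Agent.Helper57.CH.Frames3
import Pool.Agent.Helper57.CH.Asm

set_option autoImplicit false

/-! Joint form: exponential bound for one character. -/

namespace Pool.Agent.Helper57.CH

open Finset
open Pool.Agent.Helper7.SC (e nuhat Ecyc)
open Pool.Agent.Helper57.SC (exists_q exp_sub_sq_le)

lemma norm_e (y : ℝ) : ‖e y‖ = 1 := by
  unfold e
  have h3 : (2 * (Real.pi : ℂ) * (y : ℂ) * Complex.I) = ((2 * Real.pi * y : ℝ) : ℂ) * Complex.I := by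
    push_cast
    ring
  rw [h3, Complex.norm_exp_ofReal_mul_I]

lemma norm_o {o : ℂ} (ho : o ∈ ({1, -1, Complex.I, -Complex.I} : Finset ℂ)) : ‖o‖ = 1 := by
  simp only [mem_insert, mem_singleton] at ho
  rcases ho with h | h | h | h <;> subst h <;> simp

theorem core3 (hMu : StMu) (hG : StG4) (b l : ℕ) (hb : 2 ≤ b) (H : ℕ) (κ : ℝ)
    (hH : 1 ≤ H) (hκ : 0 < κ) (hκ1 : κ ≤ 1) :
    ∃ (q : ℕ) (c₀ : ℝ), 1 ≤ q ∧ l ≤ q ∧ 0 < c₀ ∧ c₀ ≤ 1 ∧ ∀ (K r m : ℕ), r + m * q ≤ K →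
    ∀ k₁ k₂ k₃ : ℤ, ¬ (k₁ = 0 ∧ k₂ = 0 ∧ k₃ = 0) → |k₁| ≤ H → |k₂| ≤ H → |k₃| ≤ H →
    ∀ o ∈ ({1, -1, Complex.I, -Complex.I} : Finset ℂ), ∀ s : ℝ, 0 < s → s ≤ 1 / 2 →
    ∀ S : Finset ℕ,
    ∑ ξ ∈ states K, prob s ξ * ∑ a ∈ S, ∑ a' ∈ S, ∑ d ∈ S, ∑ d' ∈ S,
      (if (((a : ℤ) + a' + zz b ξ : ℤ) : ZMod (b ^ K)) = (((d : ℤ) + d' : ℤ) : ZMod (b ^ K)) ∧
        κ * m ≤ ∑ B : Fin m, (o * e (k₁ * ((a : ℝ) / (b : ℝ) ^ (r + (B + 1) * q)) +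
          k₂ * ((a' : ℝ) / (b : ℝ) ^ (r + (B + 1) * q)) +
          k₃ * ((d : ℝ) / (b : ℝ) ^ (r + (B + 1) * q)))).re
        then (1 : ℝ) else 0) ≤ 2 * Real.exp (-(c₀ * s * m)) * Ecyc (b ^ K) S := by
  classical
  have hb0 : (0 : ℝ) < b := by
    have : 0 < b := by omega
    exact_mod_cast this
  have hb2 : (2 : ℝ) ≤ b := by exact_mod_cast hb
  have hHr : (1 : ℝ) ≤ H := by exact_mod_cast hH
  obtain ⟨ρ, hρ⟩ : ∃ ρ : ℝ, ρ = 4 / κ := ⟨_, rfl⟩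
  have hρ4 : 4 ≤ ρ := by
    rw [hρ, le_div_iff₀ hκ]
    linarith
  have hρκ : ρ * κ = 4 := by
    rw [hρ]
    field_simp
  have hHρ : (1 : ℝ) ≤ H * ρ := by nlinarith
  obtain ⟨η, hη⟩ : ∃ η : ℝ, η = κ / (16 * H * ρ) := ⟨_, rfl⟩
  have hη0 : 0 < η := by rw [hη]; positivity
  have hη1 : η ≤ 1 := by
    rw [hη, div_le_one (by positivity)]
    nlinarith
  obtain ⟨q, hq1, hql, hq2, hq3⟩ := exists_q' b hb H l η hη0
  have hqr : (1 : ℝ) ≤ q := by exact_mod_cast hq1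
  have hbq : (1 : ℝ) ≤ (b : ℝ) ^ 2 * q := by nlinarith
  obtain ⟨c₀, hc₀⟩ : ∃ c₀ : ℝ, c₀ = κ ^ 2 / (512 * (b : ℝ) ^ 2 * q * (H * ρ) ^ 2) := ⟨_, rfl⟩
  have hHρ2 : (1 : ℝ) ≤ (H * ρ) ^ 2 := one_le_pow₀ hHρ
  refine ⟨q, c₀, hq1, hql, by rw [hc₀]; positivity, ?_, ?_⟩
  · rw [hc₀, div_le_one (by positivity)]
    have h1 : (1 : ℝ) ≤ (b : ℝ) ^ 2 * q * (H * ρ) ^ 2 := by nlinarith
    have h2 : κ ^ 2 ≤ 1 := pow_le_one₀ hκ.le hκ1
    nlinarith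
  intro K r m hrm k₁ k₂ k₃ hk hk1 hk2 hk3 o ho s hs hs1 S
  obtain ⟨p, hp⟩ : ∃ p : ℝ, p = s / (2 * (b : ℝ) ^ 2 * q) := ⟨_, rfl⟩
  have hp0 : 0 < p := by rw [hp]; positivity
  have hp1 : p ≤ 1 / 2 := by
    rw [hp, div_le_iff₀ (by positivity)]
    nlinarith
  obtain ⟨τ, hτ⟩ : ∃ τ : ℝ, τ = κ * p / (128 * (H * ρ) ^ 2) := ⟨_, rfl⟩
  have hτ0 : 0 < τ := by rw [hτ]; positivity
  have hτ1 : τ ≤ κ / 4 := by
    rw [hτ, div_le_iff₀ (by positivity)]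
    nlinarith
  obtain ⟨Δ, hΔ⟩ : ∃ Δ : ℝ, Δ = H * τ * ρ := ⟨_, rfl⟩
  have hΔ0 : 0 < Δ := by rw [hΔ]; positivity
  have hηe : η = 8 * Δ / p := by
    rw [hΔ, hη, hτ]
    field_simp
    ring
  have hmain := hG b q r m K H p Δ η τ ρ hb hrm hH hq2 hΔ0 hp0 hp1 hηe hη1 hq3 hτ0
    (by linarith) hΔ k₁ k₂ k₃ hk hk1 hk2 hk3 o (norm_o ho) s (fun j => by
      obtain ⟨t', h1, h2, h3⟩ := hMu b q r m K s hb hq1 hrm hs.le hs1 j
      exact ⟨t', h1, by rw [hp]; exact h2, h3⟩) S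
  obtain ⟨L, hL⟩ : ∃ L : ℝ, L = (τ * κ - τ ^ 2) * m := ⟨_, rfl⟩
  have hm0 : (0 : ℝ) ≤ m := Nat.cast_nonneg m
  have hprod : ∀ a a' d : ℕ, (0 : ℝ) ≤ ∏ B : Fin m, (1 + τ * (o * e (k₁ * ((a : ℝ) /
        (b : ℝ) ^ (r + (B + 1) * q)) + k₂ * ((a' : ℝ) / (b : ℝ) ^ (r + (B + 1) * q)) +
        k₃ * ((d : ℝ) / (b : ℝ) ^ (r + (B + 1) * q)))).re) ∧
      (κ * m ≤ ∑ B : Fin m, (o * e (k₁ * ((a : ℝ) / (b : ℝ) ^ (r + (B + 1) * q)) +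
          k₂ * ((a' : ℝ) / (b : ℝ) ^ (r + (B + 1) * q)) +
          k₃ * ((d : ℝ) / (b : ℝ) ^ (r + (B + 1) * q)))).re →
        Real.exp L ≤ ∏ B : Fin m, (1 + τ * (o * e (k₁ * ((a : ℝ) /
        (b : ℝ) ^ (r + (B + 1) * q)) + k₂ * ((a' : ℝ) / (b : ℝ) ^ (r + (B + 1) * q)) +
        k₃ * ((d : ℝ) / (b : ℝ) ^ (r + (B + 1) * q)))).re)) := by
    intro a a' d
    set x : Fin m → ℝ := fun B => (o * e (k₁ * ((a : ℝ) /
        (b : ℝ) ^ (r + (B + 1) * q)) + k₂ * ((a' : ℝ) / (b : ℝ) ^ (r + (B + 1) * q)) +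
        k₃ * ((d : ℝ) / (b : ℝ) ^ (r + (B + 1) * q)))).re with hx
    have hxb : ∀ B, |x B| ≤ 1 := fun B => by
      refine (Complex.abs_re_le_norm _).trans ?_
      rw [norm_mul, norm_o ho, norm_e, mul_one]
    have hx1 : ∀ B, Real.exp (τ * x B - τ ^ 2) ≤ 1 + τ * x B := fun B => by
      have h1 : |τ * x B| ≤ 1 / 2 := by
        rw [abs_mul, abs_of_pos hτ0]
        nlinarith [hxb B, abs_nonneg (x B)]
      refine le_trans (Real.exp_le_exp.2 ?_) (exp_sub_sq_le h1)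
      have h2 : x B ^ 2 ≤ 1 := by
        rw [← sq_abs]
        exact pow_le_one₀ (abs_nonneg _) (hxb B)
      nlinarith [sq_nonneg τ]
    have hprodge : Real.exp (∑ B, (τ * x B - τ ^ 2)) ≤ ∏ B, (1 + τ * x B) := by
      rw [Real.exp_sum]
      exact prod_le_prod (fun B _ => (Real.exp_pos _).le) fun B _ => hx1 B
    refine ⟨(Real.exp_pos _).le.trans hprodge, fun hT => le_trans (Real.exp_le_exp.2 ?_) hprodge⟩
    rw [sum_sub_distrib, ← mul_sum, sum_const, card_univ, Fintype.card_fin, nsmul_eq_mul, hL]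
    have h8 : τ * (κ * m) ≤ τ * ∑ B, x B := mul_le_mul_of_nonneg_left hT hτ0.le
    linarith
  have hcomp : Real.exp L * ∑ ξ ∈ states K, prob s ξ * ∑ a ∈ S, ∑ a' ∈ S, ∑ d ∈ S, ∑ d' ∈ S,
      (if (((a : ℤ) + a' + zz b ξ : ℤ) : ZMod (b ^ K)) = (((d : ℤ) + d' : ℤ) : ZMod (b ^ K)) ∧
        κ * m ≤ ∑ B : Fin m, (o * e (k₁ * ((a : ℝ) / (b : ℝ) ^ (r + (B + 1) * q)) +
          k₂ * ((a' : ℝ) / (b : ℝ) ^ (r + (B + 1) * q)) +
          k₃ * ((d : ℝ) / (b : ℝ) ^ (r + (B + 1) * q)))).re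
        then (1 : ℝ) else 0) ≤ ((1 + 4 * Δ * η) ^ m + (1 + τ / ρ) ^ m) * Ecyc (b ^ K) S := by
    refine le_trans ?_ hmain
    rw [mul_sum]
    refine sum_le_sum fun ξ _ => ?_
    have hpr : 0 ≤ prob s ξ := by
      unfold prob
      refine prod_nonneg fun i _ => ?_
      split_ifs <;> linarith
    rw [mul_left_comm]
    refine mul_le_mul_of_nonneg_left ?_ hpr
    simp only [mul_sum]
    refine sum_le_sum fun a _ => sum_le_sum fun a' _ => sum_le_sum fun d _ =>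
      sum_le_sum fun d' _ => ?_
    by_cases h1 : (((a : ℤ) + a' + zz b ξ : ℤ) : ZMod (b ^ K)) =
      (((d : ℤ) + d' : ℤ) : ZMod (b ^ K))
    · by_cases h2 : κ * m ≤ ∑ B : Fin m, (o * e (k₁ * ((a : ℝ) / (b : ℝ) ^ (r + (B + 1) * q)) +
          k₂ * ((a' : ℝ) / (b : ℝ) ^ (r + (B + 1) * q)) +
          k₃ * ((d : ℝ) / (b : ℝ) ^ (r + (B + 1) * q)))).re
      · rw [if_pos ⟨h1, h2⟩, if_pos h1, mul_one]
        exact (hprod a a' d).2 h2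
      · rw [if_neg (fun h => h2 h.2), if_pos h1, mul_zero]
        exact (hprod a a' d).1
    · rw [if_neg (fun h => h1 h.1), if_neg h1, mul_zero]
  have hE0 : 0 ≤ Ecyc (b ^ K) S := by
    unfold Ecyc
    refine sum_nonneg fun _ _ => sum_nonneg fun _ _ => sum_nonneg fun _ _ => sum_nonneg fun _ _ => ?_
    split_ifs <;> norm_num
  have hpow : ∀ y : ℝ, 0 ≤ y → (1 + y) ^ m ≤ Real.exp (y * m) := by
    intro y hy
    have h9 : 1 + y ≤ Real.exp y := by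
      have := Real.add_one_le_exp y
      linarith
    refine (pow_le_pow_left₀ (by linarith) h9 m).trans (le_of_eq ?_)
    rw [← Real.exp_nat_mul]
    congr 1
    ring
  have hτρ : τ / ρ = τ * κ / 4 := by
    rw [hρ]
    field_simp
  have hΔη : 4 * Δ * η = τ * κ / 4 := by
    rw [hηe, hΔ, hτ]
    field_simp
    ring
  have h8 : (1 + 4 * Δ * η) ^ m + (1 + τ / ρ) ^ m ≤ 2 * Real.exp (τ * κ / 4 * m) := by
    have h1 := hpow (τ * κ / 4) (by positivity)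
    rw [hΔη, hτρ]
    linarith
  have h9 := hcomp.trans (mul_le_mul_of_nonneg_right h8 hE0)
  have h10 : τ * κ / 4 * m ≤ L - c₀ * s * m := by
    have h11 : τ * κ / 4 ≤ τ * κ - τ ^ 2 - c₀ * s := by
      have h13 : c₀ * s = τ * κ / 2 := by
        rw [hc₀, hτ, hp]
        field_simp
        ring
      rw [h13]
      nlinarith
    rw [hL]
    nlinarith
  refine le_of_mul_le_mul_left (le_trans h9 ?_) (Real.exp_pos L)
  have h12 : Real.exp L * (2 * Real.exp (-(c₀ * s * m)) * Ecyc (b ^ K) S) =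
      2 * Real.exp (L + -(c₀ * s * m)) * Ecyc (b ^ K) S := by
    rw [Real.exp_add]
    ring
  rw [h12]
  refine mul_le_mul_of_nonneg_right (mul_le_mul_of_nonneg_left (Real.exp_le_exp.2 ?_)
    (by norm_num)) hE0
  linarith

end Pool.Agent.Helper57.CH
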