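import Pool.Agent.Helper57.CH.TextE

set_option autoImplicit false

/-!
If the representation function of a set of integers is bounded, then all representations of a
random `n` look independent of all representations of a noisy copy of `n`, and no function of the
noisy copy predicts the digits of any summand of `n`.
-/

namespace Pool.Agent.Helper57.CH.Final

open Finset

open Classical in
/-- `r_A(n)`, the number of ordered pairs of elements of `A` with sum `n`. -/
noncomputable def rep (A : Set ℕ) (n : ℕ) : ℕ := #{p ∈ antidiagonal n | p.1 ∈ A ∧ p.2 ∈ A}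

open Classical in
/-- The probability of `P n z`, where `n` is uniform in `[0, b ^ K)` and `z = sum_i ξ_i b ^ i` over
`i < K`; the `ξ_i` are independent, `1` and `-1` with probability `s / 2` each, and `0` else. -/
noncomputable def Pr (b K : ℕ) (s : ℝ) (P : ℕ → ℤ → Prop) : ℝ :=
  (∑ ξ : Fin K → SignType, (∏ i, if ξ i = 0 then 1 - s else s / 2) *
    #{n ∈ range (b ^ K) | P n (∑ i, (ξ i : ℤ) * (b : ℤ) ^ (i : ℕ))}) / (b : ℝ) ^ K

/-- Every triple `u, v, w` of base `b` digits occurs in `a`, `a'`, `d` at the same position `i < K`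
with frequency `1 / b ^ 3` up to `ε`. -/
def Joint (b K : ℕ) (ε : ℝ) (a a' d : ℕ) : Prop :=
  ∀ u < b, ∀ v < b, ∀ w < b, |(#{i ∈ range K | a / b ^ i % b = u ∧ a' / b ^ i % b = v ∧
    d / b ^ i % b = w} : ℝ) - K / (b : ℝ) ^ 3| ≤ ε * K

theorem result (g b : ℕ) (ε : ℝ) (hb : 2 ≤ b) (hε : 0 < ε) : ∃ c C : ℝ, 0 < c ∧ 0 < C ∧
    ∀ A : Set ℕ, (∀ n, rep A n ≤ g) → ∀ (K : ℕ) (s : ℝ), 0 < s → s ≤ 1 / 2 →
      Pr b K s (fun n z => ∃ a ∈ A, ∃ a' ∈ A, ∃ d ∈ A, ∃ d' ∈ A, a + a' = n ∧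
        (d + d' : ℤ) = n + z ∧ ¬ Joint b K ε a a' d) ≤ C * Real.exp (-(c * s * K)) ∧
      ∀ J : ℤ → ℕ → ℕ, Pr b K s (fun n z => ∃ a ∈ A, ∃ a' ∈ A, a + a' = n ∧
        (1 / b + ε) * K ≤ #{i ∈ range K | J (n + z) i = a / b ^ i % b}) ≤
          C * Real.exp (-(c * s * K)) :=
  Pool.Agent.Helper57.CH.DoE.result g b ε hb hε

end Pool.Agent.Helper57.CH.Final
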