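import Pool.Agent.Helper7.SC.Frames
import Pool.Agent.Helper57.U2.Defs

set_option autoImplicit false

/-!
Independence of the representations of `n` and of a noisy copy of `n`:
definitions and literal statements of the pieces.
-/

namespace Pool.Agent.Helper57.CH

open Finset
open Pool.Agent.Helper7.SC (e nuhat Ecyc)
open Pool.Agent.Helper57.U2 (rep upTo)

/-- the block of `l` base `b` digits of the integer `d` at the position `i` -/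
def blk (b l i : ℕ) (d : ℤ) : ℤ := d / (b : ℤ) ^ i % (b : ℤ) ^ l

/-- each block `u < b ^ l` occurs in `d` at the positions `i < K` with frequency `1 / b ^ l` up to
`ε` -/
def Normal (b l K : ℕ) (ε : ℝ) (d : ℤ) : Prop :=
  ∀ u : ℕ, u < b ^ l → |(#{i ∈ range K | blk b l i d = u} : ℝ) - K / (b : ℝ) ^ l| ≤ ε * K

/-- the states of the noise -/
def states (K : ℕ) : Finset (Fin K → ℤ) := Fintype.piFinset fun _ => {-1, 0, 1}

/-- their probabilities: the `ξ_i` are independent, `1` and `-1` with probability `s / 2` each -/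
noncomputable def prob {K : ℕ} (s : ℝ) (ξ : Fin K → ℤ) : ℝ :=
  ∏ i, if ξ i = 0 then 1 - s else s / 2

/-- the noise `z = sum_i ξ_i b ^ i` -/
def zz (b : ℕ) {K : ℕ} (ξ : Fin K → ℤ) : ℤ := ∑ i, ξ i * (b : ℤ) ^ (i : ℕ)

/-- the characteristic function of the noise is real, nonnegative, at most that of the noise of
blocks with `p = s / (2 b² q)` -/
def StMu : Prop := ∀ (b q r m K : ℕ) (s : ℝ), 2 ≤ b → 1 ≤ q → r + m * q ≤ K → 0 ≤ s → s ≤ 1 / 2 →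
  ∀ j : ℤ, ∃ t : ℝ, 0 ≤ t ∧ t ≤ nuhat b q r m K (s / (2 * (b : ℝ) ^ 2 * q)) j ∧
    ∑ ξ ∈ states K, (prob s ξ : ℂ) * e ((zz b ξ : ℤ) * ((j : ℝ) / (b : ℝ) ^ K)) = (t : ℂ)

/-- the main inequality for an arbitrary trigonometric kernel and an arbitrary noise whose
characteristic function is dominated -/
def StG : Prop := ∀ (b q r m K H : ℕ) (p Δ η : ℝ), 2 ≤ b → r + m * q ≤ K → 1 ≤ H →
  2 * H < b ^ q → 0 < Δ → 0 < p → p ≤ 1 / 2 → η = 8 * Δ / p → η ≤ 1 →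
  Real.exp (8 * Real.pi * H / ((b : ℝ) ^ q * η)) ≤ 2 →
  ∀ c : ℤ → ℂ, (c 0).re = 1 → (∀ h : ℤ, h ≠ 0 → ‖c h‖ ≤ Δ / (2 * H)) →
  ∀ (s : ℝ), (∀ j : ℤ, ∃ t : ℝ, 0 ≤ t ∧ t ≤ nuhat b q r m K p j ∧
    ∑ ξ ∈ states K, (prob s ξ : ℂ) * e ((zz b ξ : ℤ) * ((j : ℝ) / (b : ℝ) ^ K)) = (t : ℂ)) →
  ∀ S : Finset ℕ,
  ∑ ξ ∈ states K, prob s ξ * ∑ a ∈ S, ∑ a' ∈ S, ∑ c₁ ∈ S, ∑ c₁' ∈ S,
    (if (((a : ℤ) + a' + zz b ξ : ℤ) : ZMod (b ^ K)) = (((c₁ : ℤ) + c₁' : ℤ) : ZMod (b ^ K)) then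
      ∏ B : Fin m, (∑ h ∈ Icc (-(H : ℤ)) H,
        c h * e (h * (((a : ℝ) - c₁) / (b : ℝ) ^ (r + (B + 1) * q)))).re else 0) ≤
    (1 + 4 * Δ * η) ^ m * Ecyc (b ^ K) S

/-- an integer which is not normal has a block too frequent along an arithmetic progression of
positions -/
def StDg : Prop := ∀ (b l q K : ℕ) (ε : ℝ), 2 ≤ b → 1 ≤ l → l ≤ q → 0 < ε →
  4 * (b : ℝ) ^ l * q ≤ ε * K → ∀ d : ℤ, ¬ Normal b l K ε d →
  ∃ u < b ^ l, ∃ r < q, (1 + ε / 2) / (b : ℝ) ^ l * (((K - r) / q : ℕ) : ℝ) ≤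
    ∑ B : Fin ((K - r) / q), if Nat.floor (((b ^ l : ℕ) : ℝ) *
      Int.fract ((d : ℝ) / (b : ℝ) ^ (r + (B + 1) * q))) = u then (1 : ℝ) else 0

open Classical in
/-- the number of `(a, a', c, c')` in `S^4` with `a + a' + z = c + c'` and `a - c` not normal -/
noncomputable def bad (b l K : ℕ) (ε : ℝ) (S : Finset ℕ) (z : ℤ) : ℕ :=
  #{t ∈ (S ×ˢ S) ×ˢ (S ×ˢ S) | (t.1.1 : ℤ) + t.1.2 + z = t.2.1 + t.2.2 ∧
    ¬ Normal b l K ε ((t.1.1 : ℤ) - t.2.1)}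

/-- the theorem -/
def StCH : Prop := ∀ (b l : ℕ), 2 ≤ b → 1 ≤ l → ∀ ε : ℝ, 0 < ε → ∃ c C : ℝ, 0 < c ∧ 0 < C ∧
  ∀ (A : Set ℕ) (K : ℕ) (s : ℝ), 0 < s → s ≤ 1 / 2 →
  ∑ ξ ∈ states K, prob s ξ * bad b l K ε (upTo A (b ^ K)) (zz b ξ) ≤
    C * Real.exp (-(c * s * K)) * ∑ n ∈ range (2 * b ^ K), (rep A n : ℝ) ^ 2

end Pool.Agent.Helper57.CH
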