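import Pool.Agent.Helper57.CH.Frames

set_option autoImplicit false

/-!
Joint form: the summands `a`, `a'` of `n` and `d` of a noisy copy of `n` are jointly normal.
Definitions and literal statements of the pieces.
-/

namespace Pool.Agent.Helper57.CH

open Finset
open Pool.Agent.Helper7.SC (e nuhat Ecyc)
open Pool.Agent.Helper57.U2 (rep upTo)

/-- each triple `u, v, w < b ^ l` of blocks occurs in `a`, `a'`, `d` at the same position `i < K`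
with frequency `1 / b ^ (3 l)` up to `ε` -/
def Joint (b l K : ℕ) (ε : ℝ) (a a' d : ℕ) : Prop :=
  ∀ u v w : ℕ, u < b ^ l → v < b ^ l → w < b ^ l →
    |(#{i ∈ range K | a / b ^ i % b ^ l = u ∧ a' / b ^ i % b ^ l = v ∧
      d / b ^ i % b ^ l = w} : ℝ) - K / ((b : ℝ) ^ l) ^ 3| ≤ ε * K

open Classical in
/-- the number of `(a, a', d, d')` in `S^4` with `a + a' + z = d + d'` and `a`, `a'`, `d` not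
jointly normal -/
noncomputable def bad3 (b l K : ℕ) (ε : ℝ) (S : Finset ℕ) (z : ℤ) : ℕ :=
  #{t ∈ (S ×ˢ S) ×ˢ (S ×ˢ S) | (t.1.1 : ℤ) + t.1.2 + z = t.2.1 + t.2.2 ∧
    ¬ Joint b l K ε t.1.1 t.1.2 t.2.1}

/-- (W1) pigeonhole for the positions -/
def StD3 : Prop := ∀ (b l q K : ℕ) (ε : ℝ), 2 ≤ b → 1 ≤ l → l ≤ q → 0 < ε →
  4 * ((b : ℝ) ^ l) ^ 3 * q ≤ ε * K → ∀ a a' d : ℕ, ¬ Joint b l K ε a a' d →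
  ∃ u < b ^ l, ∃ v < b ^ l, ∃ w < b ^ l, ∃ r < q,
    (1 + ε / 2) / ((b : ℝ) ^ l) ^ 3 * (((K - r) / q : ℕ) : ℝ) ≤
    ∑ B : Fin ((K - r) / q),
      if Nat.floor (((b ^ l : ℕ) : ℝ) * Int.fract ((a : ℝ) / (b : ℝ) ^ (r + (B + 1) * q))) = u ∧
        Nat.floor (((b ^ l : ℕ) : ℝ) * Int.fract ((a' : ℝ) / (b : ℝ) ^ (r + (B + 1) * q))) = v ∧
        Nat.floor (((b ^ l : ℕ) : ℝ) * Int.fract ((d : ℝ) / (b : ℝ) ^ (r + (B + 1) * q))) = w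
      then (1 : ℝ) else 0

/-- (W2) a box hit too often gives a large exponential sum -/
def StM3 : Prop := ∀ (L : ℕ), 2 ≤ L → ∀ ε : ℝ, 0 < ε → ∃ (H : ℕ) (κ : ℝ), 1 ≤ H ∧ 0 < κ ∧ κ ≤ 1 ∧
  ∀ (m : ℕ) (y₁ y₂ y₃ : Fin m → ℝ) (u v w : ℕ), u < L → v < L → w < L →
  (1 + ε / 2) / (L : ℝ) ^ 3 * m ≤ ∑ B : Fin m,
    (if Nat.floor ((L : ℝ) * Int.fract (y₁ B)) = u ∧ Nat.floor ((L : ℝ) * Int.fract (y₂ B)) = v ∧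
      Nat.floor ((L : ℝ) * Int.fract (y₃ B)) = w then (1 : ℝ) else 0) →
  ∃ k₁ k₂ k₃ : ℤ, ¬ (k₁ = 0 ∧ k₂ = 0 ∧ k₃ = 0) ∧ |k₁| ≤ H ∧ |k₂| ≤ H ∧ |k₃| ≤ H ∧
    ∃ o ∈ ({1, -1, Complex.I, -Complex.I} : Finset ℂ),
      κ * m ≤ ∑ B : Fin m, (o * e (k₁ * y₁ B + k₂ * y₂ B + k₃ * y₃ B)).re

/-- (G4) the main inequality for one character of `(a, a', d)` -/
def StG4 : Prop := ∀ (b q r m K H : ℕ) (p Δ η τ ρ : ℝ), 2 ≤ b → r + m * q ≤ K → 1 ≤ H →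
  2 * H < b ^ q → 0 < Δ → 0 < p → p ≤ 1 / 2 → η = 8 * Δ / p → η ≤ 1 →
  Real.exp (8 * Real.pi * H / ((b : ℝ) ^ q * η)) ≤ 2 → 0 < τ → 1 ≤ ρ → Δ = H * τ * ρ →
  ∀ k₁ k₂ k₃ : ℤ, ¬ (k₁ = 0 ∧ k₂ = 0 ∧ k₃ = 0) → |k₁| ≤ H → |k₂| ≤ H → |k₃| ≤ H →
  ∀ o : ℂ, ‖o‖ = 1 →
  ∀ (s : ℝ), (∀ j : ℤ, ∃ t : ℝ, 0 ≤ t ∧ t ≤ nuhat b q r m K p j ∧
    ∑ ξ ∈ states K, (prob s ξ : ℂ) * e ((zz b ξ : ℤ) * ((j : ℝ) / (b : ℝ) ^ K)) = (t : ℂ)) →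
  ∀ S : Finset ℕ,
  ∑ ξ ∈ states K, prob s ξ * ∑ a ∈ S, ∑ a' ∈ S, ∑ d ∈ S, ∑ d' ∈ S,
    (if (((a : ℤ) + a' + zz b ξ : ℤ) : ZMod (b ^ K)) = (((d : ℤ) + d' : ℤ) : ZMod (b ^ K)) then
      ∏ B : Fin m, (1 + τ * (o * e (k₁ * ((a : ℝ) / (b : ℝ) ^ (r + (B + 1) * q)) +
        k₂ * ((a' : ℝ) / (b : ℝ) ^ (r + (B + 1) * q)) +
        k₃ * ((d : ℝ) / (b : ℝ) ^ (r + (B + 1) * q)))).re) else 0) ≤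
    ((1 + 4 * Δ * η) ^ m + (1 + τ / ρ) ^ m) * Ecyc (b ^ K) S

/-- the theorem, joint form -/
def StCH3 : Prop := ∀ (b l : ℕ), 2 ≤ b → 1 ≤ l → ∀ ε : ℝ, 0 < ε → ∃ c C : ℝ, 0 < c ∧ 0 < C ∧
  ∀ (A : Set ℕ) (K : ℕ) (s : ℝ), 0 < s → s ≤ 1 / 2 →
  ∑ ξ ∈ states K, prob s ξ * bad3 b l K ε (upTo A (b ^ K)) (zz b ξ) ≤
    C * Real.exp (-(c * s * K)) * ∑ n ∈ range (2 * b ^ K), (rep A n : ℝ) ^ 2

end Pool.Agent.Helper57.CH
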