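import Pool.Agent.Helper57.CH.All

set_option autoImplicit false

/-! The law of the noise as a sum over sequences of signs. -/

namespace Pool.Agent.Helper57.CH

open Finset

lemma sum_sign (b K : ℕ) (s : ℝ) (F : ℤ → ℝ) :
    ∑ ξ : Fin K → SignType, (∏ i, if ξ i = 0 then 1 - s else s / 2) *
      F (∑ i, (ξ i : ℤ) * (b : ℤ) ^ (i : ℕ)) = ∑ ξ ∈ states K, prob s ξ * F (zz b ξ) := by
  classical
  have h0 : ∀ x : SignType, (x : ℤ) ∈ ({-1, 0, 1} : Finset ℤ) := by
    intro x
    cases x <;> decide
  have h1 : ∀ x : SignType, SignType.sign ((x : ℤ)) = x := by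
    intro x
    cases x <;> decide
  have h2 : ∀ y ∈ ({-1, 0, 1} : Finset ℤ), ((SignType.sign y : SignType) : ℤ) = y := by
    intro y hy
    rw [mem_insert, mem_insert, mem_singleton] at hy
    rcases hy with rfl | rfl | rfl <;> decide
  refine sum_bij' (fun ξ _ i => (ξ i : ℤ)) (fun η _ i => SignType.sign (η i)) ?_ ?_ ?_ ?_ ?_
  · intro ξ _
    exact Fintype.mem_piFinset.2 fun i => h0 _
  · intro η _
    exact mem_univ _
  · intro ξ _
    funext i
    exact h1 _
  · intro η hη
    funext i
    exact h2 _ (Fintype.mem_piFinset.1 hη i)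
  · intro ξ _
    have h3 : ∀ x : SignType, ((x : ℤ) = 0 ↔ x = 0) := by
      intro x
      cases x <;> decide
    unfold prob zz
    simp only [h3]

end Pool.Agent.Helper57.CH
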