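import Pool.Agent.Helper57.CH.Asm3
import Pool.Agent.Helper57.CH.Both2
import Pool.Agent.Helper63.CH.Mu
import Pool.Agent.Helper66.CH.D3
import Pool.Agent.Helper43.CH.M3
import Pool.Agent.Helper8.CH.StG4
import Pool.Agent.Helper45.CH.Noisy
import Pool.Agent.Helper7.SC.SharpNoise2

set_option autoImplicit false

/-!
In a set of integers with small additive energy the representations of `n` and of a noisy copy of
`n` are statistically independent, and no function of a noisy copy of `n` predicts the digits of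
the summands of `n`.
-/

namespace Pool.Agent.Helper57.CH.DoC

open Finset

open Classical in
/-- `r_A(n)`, the number of ordered pairs of elements of `A` with sum `n`. -/
noncomputable def rep (A : Set ℕ) (n : ℕ) : ℕ := #{p ∈ antidiagonal n | p.1 ∈ A ∧ p.2 ∈ A}

/-- The sum of `r_A(n) ^ 2` over `n < 2 b ^ K`. -/
noncomputable def energy (A : Set ℕ) (b K : ℕ) : ℝ := ∑ n ∈ range (2 * b ^ K), (rep A n : ℝ) ^ 2

open Classical in
/-- The elements of `A` below `x`. -/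
noncomputable def upTo (A : Set ℕ) (x : ℕ) : Finset ℕ := {n ∈ range x | n ∈ A}

/-- The values `-1`, `0`, `1` of the coefficients `ξ_i`, `i < K`. -/
def states (K : ℕ) : Finset (Fin K → ℤ) := Fintype.piFinset fun _ => {-1, 0, 1}

/-- The probability of `ξ`: the `ξ_i` are independent, `1` and `-1` with probability `s / 2` each,
and `0` otherwise. -/
noncomputable def prob {K : ℕ} (s : ℝ) (ξ : Fin K → ℤ) : ℝ :=
  ∏ i, if ξ i = 0 then 1 - s else s / 2

/-- The noise `z = sum_i ξ_i b ^ i`. -/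
def noise (b : ℕ) {K : ℕ} (ξ : Fin K → ℤ) : ℤ := ∑ i, ξ i * (b : ℤ) ^ (i : ℕ)

/-- Joint normality: each triple `u, v, w < b ^ l` of blocks of `l` base `b` digits occurs in `a`,
`a'`, `d` at the same position `i < K` with frequency `1 / b ^ (3 l)` up to `ε`. -/
def Joint (b l K : ℕ) (ε : ℝ) (a a' d : ℕ) : Prop :=
  ∀ u v w : ℕ, u < b ^ l → v < b ^ l → w < b ^ l →
    |(#{i ∈ range K | a / b ^ i % b ^ l = u ∧ a' / b ^ i % b ^ l = v ∧
      d / b ^ i % b ^ l = w} : ℝ) - K / ((b : ℝ) ^ l) ^ 3| ≤ ε * K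

open Classical in
/-- The number of `(a, a', d, d')` in `S^4` with `a + a' + z = d + d'` and `a`, `a'`, `d` not
jointly normal. -/
noncomputable def bad (b l K : ℕ) (ε : ℝ) (S : Finset ℕ) (z : ℤ) : ℕ :=
  #{t ∈ (S ×ˢ S) ×ˢ (S ×ˢ S) | (t.1.1 : ℤ) + t.1.2 + z = t.2.1 + t.2.2 ∧
    ¬ Joint b l K ε t.1.1 t.1.2 t.2.1}

/-- The digit of `n` at position `i` in base `b`. -/
def digit (b i n : ℕ) : ℕ := n / b ^ i % b

open Classical in
/-- The `n < b ^ K` with some representation `n = a + a'`, `a` and `a'` in `A`, such that at least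
`(1 / b + ε) K` of the digits of `a` at the positions `i < K` are the guesses `J (n + z) i`. -/
noncomputable def read (b K : ℕ) (ε : ℝ) (A : Set ℕ) (J : ℤ → ℕ → ℕ) (z : ℤ) : Finset ℕ :=
  {n ∈ range (b ^ K) | ∃ a ∈ A, ∃ a' ∈ A, a + a' = n ∧
    (1 / b + ε) * K ≤ (#{i ∈ range K | J (n + z) i = digit b i a} : ℝ)}

theorem result :
    (∀ (b l : ℕ) (ε : ℝ), 2 ≤ b → 1 ≤ l → 0 < ε → ∃ c C : ℝ, 0 < c ∧ 0 < C ∧
      ∀ (A : Set ℕ) (K : ℕ) (s : ℝ), 0 < s → s ≤ 1 / 2 →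
        ∑ ξ ∈ states K, prob s ξ * bad b l K ε (upTo A (b ^ K)) (noise b ξ) ≤
          C * Real.exp (-(c * s * K)) * energy A b K ∧
        ∀ J : ℤ → ℕ → ℕ, (∑ ξ ∈ states K, prob s ξ * #(read b K ε A J (noise b ξ))) ^ 2 ≤
          C * Real.exp (-(c * s * K)) * (b : ℝ) ^ K * energy A b K) ∧
    (∃ C : ℝ, 0 < C ∧ ∀ b v m : ℕ, 2 ≤ b → 1 ≤ v → ∃ (A : Set ℕ) (J : ℤ → ℕ → ℕ),
      (b : ℝ) ^ (v * m) / 2 ≤ ∑ ξ ∈ states (v * m), prob (1 / (16 * v)) ξ *
        #(read b (v * m) (1 / 4) A J (noise b ξ)) ∧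
      energy A b (v * m) ≤ (b : ℝ) ^ (v * m) * Real.exp (C * m)) := by
  have hCH : Pool.Agent.Helper57.CH.StCH3 := Pool.Agent.Helper57.CH.stCH3
    Pool.Agent.Helper63.CH.stMu Pool.Agent.Helper8.CH.stG4 Pool.Agent.Helper66.CH.stD3
    Pool.Agent.Helper43.CH.stM3
  exact ⟨Pool.Agent.Helper57.CH.both2 hCH fun b ε hb hε =>
    Pool.Agent.Helper45.CH.noisy hCH b hb ε hε, Pool.Agent.Helper7.SC.sharp_noise2⟩

end Pool.Agent.Helper57.CH.DoC
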