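import Pool.Agent.Helper57.CH.Asm3
import Pool.Agent.Helper57.CH.Sign
import Pool.Agent.Helper63.CH.Mu
import Pool.Agent.Helper66.CH.D3
import Pool.Agent.Helper43.CH.M3
import Pool.Agent.Helper8.CH.StG4
import Pool.Agent.Helper45.CH.Noisy

set_option autoImplicit false

/-!
If the representation function of a set of integers is bounded, then all representations of a
random `n` look independent of all representations of a noisy copy of `n`, and no function of the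
noisy copy predicts the digits of any summand of `n`.
-/

namespace Pool.Agent.Helper57.CH.DoE

open Finset

open Classical in
/-- `r_A(n)`, the number of ordered pairs of elements of `A` with sum `n`. -/
noncomputable def rep (A : Set ℕ) (n : ℕ) : ℕ := #{p ∈ antidiagonal n | p.1 ∈ A ∧ p.2 ∈ A}

open Classical in
/-- The probability of `P n z`, where `n` is uniform in `[0, b ^ K)` and `z = sum_i ξ_i b ^ i` over
`i < K`; the `ξ_i` are independent, `1` and `-1` with probability `s / 2` each, and `0` else. -/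
noncomputable def Pr (b K : ℕ) (s : ℝ) (P : ℕ → ℤ → Prop) : ℝ :=
  (∑ ξ : Fin K → SignType, (∏ i, if ξ i = 0 then 1 - s else s / 2) *
    #{n ∈ range (b ^ K) | P n (∑ i, (ξ i : ℤ) * (b : ℤ) ^ (i : ℕ))}) / (b : ℝ) ^ K

/-- Every triple `u, v, w` of base `b` digits occurs in `a`, `a'`, `d` at the same position `i < K`
with frequency `1 / b ^ 3` up to `ε`. -/
def Joint (b K : ℕ) (ε : ℝ) (a a' d : ℕ) : Prop :=
  ∀ u < b, ∀ v < b, ∀ w < b, |(#{i ∈ range K | a / b ^ i % b = u ∧ a' / b ^ i % b = v ∧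
    d / b ^ i % b = w} : ℝ) - K / (b : ℝ) ^ 3| ≤ ε * K

open Pool.Agent.Helper57.CH (states prob zz sum_sign)

/-- comparison of the event counts -/
lemma Pr_le (b K : ℕ) (hb : 2 ≤ b) (s : ℝ) (P : ℕ → ℤ → Prop) (S : ℤ → Finset ℕ) (B : ℝ)
    (hPS : ∀ n z, n < b ^ K → P n z → n ∈ S z) (hs : 0 < s) (hs2 : s ≤ 1 / 2)
    (hS : ∑ ξ ∈ states K, prob s ξ * #(S (zz b ξ)) ≤ B * (b : ℝ) ^ K) : Pr b K s P ≤ B := by
  classical
  have hx : (0 : ℝ) < (b : ℝ) ^ K := by
    have : 0 < b := by omega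
    positivity
  unfold Pr
  rw [div_le_iff₀ hx]
  refine le_trans ?_ hS
  rw [← sum_sign b K s (fun z => (#(S z) : ℝ))]
  refine sum_le_sum fun ξ _ => ?_
  refine mul_le_mul_of_nonneg_left ?_ (prod_nonneg fun i _ => by split_ifs <;> linarith)
  have h1 : #{n ∈ range (b ^ K) | P n (∑ i, (ξ i : ℤ) * (b : ℤ) ^ (i : ℕ))} ≤
      #(S (∑ i, (ξ i : ℤ) * (b : ℤ) ^ (i : ℕ))) := by
    refine card_le_card fun n hn => ?_
    rw [mem_filter, mem_range] at hn
    exact hPS n _ hn.1 hn.2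
  exact_mod_cast h1

theorem result (g b : ℕ) (ε : ℝ) (hb : 2 ≤ b) (hε : 0 < ε) : ∃ c C : ℝ, 0 < c ∧ 0 < C ∧
    ∀ A : Set ℕ, (∀ n, rep A n ≤ g) → ∀ (K : ℕ) (s : ℝ), 0 < s → s ≤ 1 / 2 →
      Pr b K s (fun n z => ∃ a ∈ A, ∃ a' ∈ A, ∃ d ∈ A, ∃ d' ∈ A, a + a' = n ∧
        (d + d' : ℤ) = n + z ∧ ¬ Joint b K ε a a' d) ≤ C * Real.exp (-(c * s * K)) ∧
      ∀ J : ℤ → ℕ → ℕ, Pr b K s (fun n z => ∃ a ∈ A, ∃ a' ∈ A, a + a' = n ∧
        (1 / b + ε) * K ≤ #{i ∈ range K | J (n + z) i = a / b ^ i % b}) ≤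
          C * Real.exp (-(c * s * K)) := by
  classical
  have hCH : Pool.Agent.Helper57.CH.StCH3 := Pool.Agent.Helper57.CH.stCH3
    Pool.Agent.Helper63.CH.stMu Pool.Agent.Helper8.CH.stG4 Pool.Agent.Helper66.CH.stD3
    Pool.Agent.Helper43.CH.stM3
  obtain ⟨c₁, C₁, hc₁, hC₁, h₁⟩ := Pool.Agent.Helper57.CH.all_reps hCH b g ε hb hε
  obtain ⟨c₂, C₂, hc₂, hC₂, h₂⟩ := Pool.Agent.Helper57.CH.both2 hCH (fun b ε hb hε =>
    Pool.Agent.Helper45.CH.noisy hCH b hb ε hε) b 1 ε hb le_rfl hε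
  obtain ⟨c, hc⟩ : ∃ c, c = min c₁ (c₂ / 2) := ⟨_, rfl⟩
  obtain ⟨C, hC⟩ : ∃ C, C = max C₁ (√(2 * C₂) * g + 1) := ⟨_, rfl⟩
  have hc0 : 0 < c := by rw [hc]; exact lt_min hc₁ (by positivity)
  have hcc₁ : c ≤ c₁ := by rw [hc]; exact min_le_left _ _
  have hcc₂ : c ≤ c₂ / 2 := by rw [hc]; exact min_le_right _ _
  have hCC₁ : C₁ ≤ C := by rw [hC]; exact le_max_left _ _
  have hCC₂ : √(2 * C₂) * g + 1 ≤ C := by rw [hC]; exact le_max_right _ _
  refine ⟨c, C, hc0, by linarith, fun A hA K s hs hs2 => ?_⟩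
  have hK0 : (0 : ℝ) ≤ K := Nat.cast_nonneg _
  have hx : (0 : ℝ) < (b : ℝ) ^ K := by
    have : 0 < b := by omega
    positivity
  have hexp : ∀ c' : ℝ, c ≤ c' → Real.exp (-(c' * s * K)) ≤ Real.exp (-(c * s * K)) := by
    intro c' hcc'
    refine Real.exp_le_exp.2 ?_
    have h5 : c * s * K ≤ c' * s * K :=
      mul_le_mul_of_nonneg_right (mul_le_mul_of_nonneg_right hcc' hs.le) hK0
    linarith
  refine ⟨?_, fun J => ?_⟩
  · refine Pr_le b K hb s _ (Pool.Agent.Helper57.CH.allBad b K ε A) _ ?_ hs hs2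
      ((h₁ A hA K s hs hs2).trans ?_)
    · rintro n z hn ⟨a, ha, a', ha', d, hd, d', hd', e1, e2, e3⟩
      unfold Pool.Agent.Helper57.CH.allBad
      rw [mem_filter, mem_range]
      refine ⟨hn, a, ha, a', ha', d, hd, d', hd', e1, e2, fun h => e3 ?_⟩
      intro u hu v hv w hw
      have h3 := h u v w (by rw [pow_one]; exact hu) (by rw [pow_one]; exact hv)
        (by rw [pow_one]; exact hw)
      rw [pow_one, pow_one] at h3
      exact h3
    · refine mul_le_mul_of_nonneg_right ?_ hx.le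
      exact mul_le_mul hCC₁ (hexp c₁ hcc₁) (Real.exp_pos _).le (by linarith)
  · refine Pr_le b K hb s _ (Pool.Agent.Helper57.CH.read2 b K ε A J) _ ?_ hs hs2 ?_
    · rintro n z hn ⟨a, ha, a', ha', e1, e2⟩
      unfold Pool.Agent.Helper57.CH.read2
      rw [mem_filter, mem_range]
      exact ⟨hn, a, ha, a', ha', e1, e2⟩
    · have h3 := (h₂ A K s hs hs2).2 J
      obtain ⟨M, hM⟩ : ∃ M : ℝ, M = ∑ ξ ∈ states K, prob s ξ *
        #(Pool.Agent.Helper57.CH.read2 b K ε A J (zz b ξ)) := ⟨_, rfl⟩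
      rw [← hM] at h3 ⊢
      have h4 : ∑ n ∈ range (2 * b ^ K), (Pool.Agent.Helper57.U2.rep A n : ℝ) ^ 2 ≤
          2 * (b : ℝ) ^ K * g ^ 2 := by
        have h5 : ∀ n ∈ range (2 * b ^ K), (Pool.Agent.Helper57.U2.rep A n : ℝ) ^ 2 ≤
            (g : ℝ) ^ 2 := fun n _ => by
          have : (Pool.Agent.Helper57.U2.rep A n : ℝ) ≤ g := by exact_mod_cast hA n
          exact pow_le_pow_left₀ (Nat.cast_nonneg _) this 2
        refine (sum_le_sum h5).trans (le_of_eq ?_)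
        rw [sum_const, card_range, nsmul_eq_mul]
        push_cast
        ring
      have h5 : M ^ 2 ≤ (√(2 * C₂) * g * Real.exp (-(c₂ / 2 * s * K)) * (b : ℝ) ^ K) ^ 2 := by
        refine h3.trans ((mul_le_mul_of_nonneg_left h4 (by positivity)).trans (le_of_eq ?_))
        have h6 : √(2 * C₂) ^ 2 = 2 * C₂ := Real.sq_sqrt (by positivity)
        have h7 : Real.exp (-(c₂ / 2 * s * K)) ^ 2 = Real.exp (-(c₂ * s * K)) := by
          rw [← Real.exp_nat_mul]
          congr 1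
          push_cast
          ring
        calc C₂ * Real.exp (-(c₂ * s * K)) * (b : ℝ) ^ K * (2 * (b : ℝ) ^ K * g ^ 2)
            = (2 * C₂) * g ^ 2 * Real.exp (-(c₂ * s * K)) * ((b : ℝ) ^ K) ^ 2 := by ring
          _ = √(2 * C₂) ^ 2 * g ^ 2 * Real.exp (-(c₂ / 2 * s * K)) ^ 2 * ((b : ℝ) ^ K) ^ 2 := by
              rw [h6, h7]
          _ = _ := by ring
      have h6 : M ≤ √(2 * C₂) * g * Real.exp (-(c₂ / 2 * s * K)) * (b : ℝ) ^ K :=
        (le_abs_self M).trans (abs_le_of_sq_le_sq h5 (by positivity))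
      refine h6.trans ?_
      refine mul_le_mul_of_nonneg_right ?_ hx.le
      refine mul_le_mul (by linarith) (hexp _ hcc₂) (Real.exp_pos _).le (by linarith)

end Pool.Agent.Helper57.CH.DoE
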